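import Pool.Agent.Q234.KT.Stm3

/-!
# Project KG: the statements about reduced states, for all local dimensions

The statements of `Pool/Agent/Q234/KT/Stm3.lean` with `d ≥ 2` in place of `2`. The proofs are the same (they were
written for `d = 2` in project KT).
-/

set_option autoImplicit false

open scoped BigOperators ComplexConjugate
open Finset

namespace Pool.Agent.Q234.KG

open Pool.Agent.Q234.KT (bR pt)

open Pool.Agent.H4R2 in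
/-- RateS of project KT for all `d ≥ 2` and any gap `γ > 0` (in place of `1`). -/
def RateS : Prop := ∀ (d : ℕ) (R : Finset (ℤ × ℤ)) (k : Matrix (R → Fin d) (R → Fin d) ℂ) (γ s : ℝ)
  (L₁ : ℕ) (ψ : ∀ (L : ℕ) [NeZero L], (Site L → Fin d) → ℂ), 2 ≤ d → k.IsHermitian → 0 < γ → 0 < s →
  (∀ (L : ℕ) [NeZero L], L₁ ≤ L → normSq (ψ L) = 1 ∧ IsGappedGround (ham R k L) γ (ψ L)) →
  (∀ (L : ℕ) [NeZero L], L₁ ≤ L → ∀ O : Matrix (R → Fin d) (R → Fin d) ℂ, O.IsHermitian →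
    (∀ a b, ‖O a b‖ ≤ 2) → ∀ t : ℝ, 0 < t → t ≤ s → ∃ φ : (Site L → Fin d) → ℂ, normSq φ = 1 ∧
      IsGappedGround (ham R k L + (t : ℂ) • ham R O L) γ φ) →
  ∃ C : ℝ, 0 < C ∧ ∀ ε : ℝ, 0 < ε → ε ≤ 1 → ∀ (L L' : ℕ) [NeZero L] [NeZero L'],
    C / ε ^ 4 ≤ L → C / ε ^ 4 ≤ L' →
    ∀ a b, ‖redState R (ψ L) a b - redState R (ψ L') a b‖ ≤ ε

/-- a box operator as an operator on the region `bR N` -/
def toR {d N : ℕ} (h : Pool.Agent.TH235.PP.BoxOp d N) : Matrix (bR N → Fin d) (bR N → Fin d) ℂ :=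
  fun a b => h (fun x => a (pt N x)) (fun x => b (pt N x))

/-- BoxS of project KT for all `d`. -/
def BoxS : Prop := ∀ d : ℕ,
  (∀ (N : ℕ) (h : Pool.Agent.TH235.PP.BoxOp d N) (L : ℕ) [NeZero L],
    Pool.Agent.TH235.PP.ham h L = Pool.Agent.H4R2.ham (bR N) (toR h) L) ∧
  (∀ (N : ℕ) (O : Matrix (bR N → Fin d) (bR N → Fin d) ℂ), ∃ O' : Pool.Agent.TH235.PP.BoxOp d N,
    toR O' = O ∧ (O.IsHermitian → O'.IsHermitian) ∧ ∀ p q, ∃ a b, O' p q = O a b) ∧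
  ∀ (N : ℕ) (h : Pool.Agent.TH235.PP.BoxOp d N), h.IsHermitian → (toR h).IsHermitian

/-- RedS of project KT for all `d ≥ 2`. -/
def RedS : Prop := ∀ d r : ℕ, 2 ≤ d → 0 < r → ∃ C : ℝ, 0 < C ∧ ∀ (L L' : ℕ) [NeZero L] [NeZero L'],
  r ≤ L → r ≤ L' → ∀ (Ψ : Pool.Agent.Y738.PE.Conf d L → ℂ) (Ψ' : Pool.Agent.Y738.PE.Conf d L' → ℂ)
    (η : ℝ), Pool.Agent.H4R2.normSq Ψ = 1 → Pool.Agent.H4R2.normSq Ψ' = 1 →
    Pool.Agent.Y665.PE.TransInv Ψ → Pool.Agent.Y665.PE.TransInv Ψ' →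
    (∀ a b, ‖Pool.Agent.H4R2.redState (bR r) Ψ a b - Pool.Agent.H4R2.redState (bR r) Ψ' a b‖ ≤ η) →
    ∀ (u : Pool.Agent.Y738.PE.Site L) (v : Pool.Agent.Y738.PE.Site L')
      (B : Pool.Agent.Y738.PE.BConf d r → Pool.Agent.Y738.PE.BConf d r → ℂ),
      Pool.Agent.Y738.PE.Contr B →
      ‖Pool.Agent.Y738.PE.expec Ψ u B - Pool.Agent.Y738.PE.expec Ψ' v B‖ ≤ C * η

open Pool.Agent.Y738.PE in
/-- NearS of project KT for all `d ≥ 2`. -/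
def NearS : Prop := ∀ (d : ℕ) (R : Finset (ℤ × ℤ)), 2 ≤ d → ∃ r₀ : ℕ, ∀ (L : ℕ) [NeZero L], r₀ ≤ L →
  ∀ (Ψ φ : Conf d L → ℂ) (ε : ℝ), 0 < ε → ε ≤ 1 → nrm Ψ = 1 → Pool.Agent.Y665.PE.TransInv Ψ →
    nrm (fun s => φ s - Ψ s) ≤ (ε / 8) ^ 2 → nrm φ ≠ 0 ∧ Close R Ψ φ ε

/-- TrS of project KT for all `d ≥ 2`. -/
def TrS : Prop := ∀ (d : ℕ) (R : Finset (ℤ × ℤ)) (L : ℕ) [NeZero L]
  (Ψ Ψ' : Pool.Agent.Y738.PE.Conf d L → ℂ) (ε : ℝ), 2 ≤ d → Pool.Agent.Y738.PE.Close R Ψ Ψ' ε →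
    Pool.Agent.H4R2.traceNorm (Pool.Agent.H4R2.redState R Ψ - Pool.Agent.H4R2.redState R Ψ') ≤
      ((d : ℝ) ^ R.card) ^ 2 * ε

end Pool.Agent.Q234.KG
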