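import Pool.Agent.Q234.KG.Dec
import Pool.Agent.Q277.KG.FO
import Pool.Agent.Q277.KG.AL
import Pool.Agent.Q279.KG.EX
import Pool.Agent.Q231.KG.DI
import Pool.Agent.Q214.KG.UP
import Pool.Agent.Q123.KG.Jp
import Pool.Agent.Q137.KG.CT
import Pool.Agent.Q237.KG.FX
import Pool.Agent.Q53.KG.EG
import Pool.Agent.Q277.KG.GA
import Pool.Agent.Q237.KG.N2
import Pool.Agent.Q237.KG.LO
import Pool.Agent.Q277.KG.RP
import Pool.Agent.Q53.KG.CN
import Pool.Agent.Q53.KG.WT
import Pool.Agent.Q176.KG.Prd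
import Pool.Agent.Q123.KG.Ma
import Pool.Agent.Q193.KG.AR
import Pool.Agent.Q150.KG.UN
import Pool.Agent.Q266.KG.ST
import Pool.Agent.Q195.KG.RT
import Pool.Agent.Q195.KG.BX
import Pool.Agent.Q195.KG.RD
import Pool.Agent.Q195.KG.TR
import Pool.Agent.Q193.KG.DC
import Pool.Agent.Q181.KG.PU
import Pool.Agent.Q164.KT.SiteN
import Pool.Agent.Q265.KT.CA
import Pool.Agent.Q64.KT.HU
import Pool.Agent.Q63.KT.AN

/-!
# Project KG: the theorems without hypotheses
-/

set_option autoImplicit false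

namespace Pool.Agent.Q234.KG

theorem four : FourS := Pool.Agent.Q277.KG.FO.main

theorem alg : AlgS := Pool.Agent.Q277.KG.AL.main four

theorem expS : ExpS := Pool.Agent.Q279.KG.EX.main alg

theorem upart : UPart := Pool.Agent.Q214.KG.UP.main four expS

theorem jpart : JPart := Pool.Agent.Q123.KG.JP.main four alg expS

theorem contr : ContrS := Pool.Agent.Q137.KG.CT.main four upart

theorem twoC : Fin.TwoC :=
  Fin.two jpart contr Pool.Agent.Q237.KG.FX.main (Pool.Agent.Q53.KG.EG.main four)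
    (Pool.Agent.Q277.KG.GA.main four) (Pool.Agent.Q237.KG.N2.main four)
    (Pool.Agent.Q64.KT.HU.main Pool.Agent.Q63.KT.AN.main) (Pool.Agent.Q123.KG.MA.main four)

theorem finC : Fin.FinC :=
  Fin.fin jpart contr Pool.Agent.Q237.KG.FX.main (Pool.Agent.Q53.KG.EG.main four)
    (Pool.Agent.Q277.KG.GA.main four) (Pool.Agent.Q237.KG.N2.main four)
    (Pool.Agent.Q64.KT.HU.main Pool.Agent.Q63.KT.AN.main) (Pool.Agent.Q123.KG.MA.main four)
    Pool.Agent.Q265.KT.CA.main (Pool.Agent.Q277.KG.RP.main Pool.Agent.Q237.KG.LO.main)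
    Pool.Agent.Q53.KG.CN.main (Pool.Agent.Q53.KG.WT.main four) (Pool.Agent.Q176.KG.main four)
    Pool.Agent.Q193.KG.AR.main

theorem finA : Gen.FinA :=
  Gen.finA Pool.Agent.Q231.KG.DI.main Pool.Agent.Q150.KG.UN.main Pool.Agent.Q266.KG.ST.main finC

theorem twoA : Gen.TwoA :=
  Gen.twoA Pool.Agent.Q231.KG.DI.main Pool.Agent.Q150.KG.UN.main Pool.Agent.Q266.KG.ST.main twoC

/-- The global theorem. -/
theorem finalD : Dec.FinD :=
  Dec.finD finA Pool.Agent.Q193.KG.DC.main Pool.Agent.Q181.KG.PU.main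
    Pool.Agent.Q164.KT.SiteN.main

theorem twoDD : Dec.TwoD :=
  Dec.twoD twoA Pool.Agent.Q193.KG.DC.main Pool.Agent.Q164.KT.SiteN.main

end Pool.Agent.Q234.KG
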