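import Pool.Agent.Q234.KG.All
import Pool.Agent.Q266.KG.NR

/-!
# Project KG: the local theorem without hypotheses
-/

set_option autoImplicit false

namespace Pool.Agent.Q234.KG

/-- The local theorem. -/
theorem localD : Dec.LocD :=
  Dec.locD finalD twoDD Pool.Agent.Q193.KG.DC.main Pool.Agent.Q195.KG.BX.main
    Pool.Agent.Q195.KG.RT.main Pool.Agent.Q195.KG.RD.main Pool.Agent.Q266.KG.NR.main
    Pool.Agent.Q195.KG.TR.main

end Pool.Agent.Q234.KG
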