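import Pool.Agent.Q234.KG.Stm

/-!
# Project KG: decoration by phases

`U_L(σ) = ∏_v u(σ on the m × m box at v)` with a function `u` of modulus one is a diagonal unitary. The class of
interactions near `U a_(0,0) Uᴴ` contains the neighbourhoods of the cluster Hamiltonian and of the fixed points
of the (group cohomology) symmetry protected phases.
-/

set_option autoImplicit false

open scoped BigOperators
open Finset Pool.Agent.TH235.PP

namespace Pool.Agent.Q234.KG

/-- the phase `U_L(σ) = ∏_v u(σ on the box at v)` -/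
noncomputable def phase {d m L : ℕ} [NeZero L] (u : (Fin m × Fin m → Fin d) → ℂ)
    (σ : Site L → Fin d) : ℂ := ∏ v : Site L, u fun x => σ (sh v x)

/-- the window of side `m` at `y` in a configuration of the box of side `n + 2 m` -/
def win {d n m : ℕ} (p : Fin (n + 2 * m) × Fin (n + 2 * m) → Fin d)
    (y : Fin (n + m + 1) × Fin (n + m + 1)) (x : Fin m × Fin m) : Fin d :=
  p (⟨(y.1 : ℕ) + x.1, by have := y.1.2; have := x.1.2; omega⟩,
    ⟨(y.2 : ℕ) + x.2, by have := y.2.2; have := x.2.2; omega⟩)

/-- the inner box of side `n` in the box of side `n + 2 m` -/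
def inn {d n m : ℕ} (p : Fin (n + 2 * m) × Fin (n + 2 * m) → Fin d) (x : Fin n × Fin n) : Fin d :=
  p (⟨m + (x.1 : ℕ), by have := x.1.2; omega⟩, ⟨m + (x.2 : ℕ), by have := x.2.2; omega⟩)

open Classical in
/-- the conjugated interaction: `k` acts on the inner box, multiplied by the phases of all windows of side `m` in
the box of side `n + 2 m` -/
noncomputable def deco {d n m : ℕ} (u : (Fin m × Fin m → Fin d) → ℂ) (k : BoxOp d n) :
    BoxOp d (n + 2 * m) := fun p q =>
  if ∀ z : Fin (n + 2 * m) × Fin (n + 2 * m),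
      ¬ ((m ≤ (z.1 : ℕ) ∧ (z.1 : ℕ) < m + n) ∧ m ≤ (z.2 : ℕ) ∧ (z.2 : ℕ) < m + n) → p z = q z then
    k (inn p) (inn q) * ∏ y : Fin (n + m + 1) × Fin (n + m + 1),
      (u (win p y) * (starRingEnd ℂ) (u (win q y)))
  else 0

/-- DecoS. PROOF. First: for `s`, `t` which agree off the box of side `n` at `v`, the factors of
`phase u s * conj (phase u t)` at the sites `w` whose `m`-box does not meet this box are `|u|² = 1`; the other `w` are
`v - (m,m) + y` with `y ∈ [0, n + m]²`, distinct as `n + 2 m + 1 ≤ L`, and `s` on the `m`-box at `v - (m,m) + y` is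
`win p y` for `p = s` on the box of side `n + 2 m` at `v - (m,m)`; the factors of the `y` whose window does not meet
the inner box are again `1` in both expressions. So `phase u s * term k v s t * conj (phase u t) =
term (deco u k) (v - (m,m)) s t`; if `s`, `t` do not agree off the box of side `n` at `v` both sides are `0`. Sum over
`v`. Second: `|u| = 1`. Third: conjugate the definition. -/
def DecoS : Prop := ∀ (d n m : ℕ) (u : (Fin m × Fin m → Fin d) → ℂ) (k : BoxOp d n), 1 ≤ n →
  (∀ p, ‖u p‖ = 1) →
  (∀ (L : ℕ) [NeZero L], n + 2 * m + 1 ≤ L → ∀ s t : Site L → Fin d,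
    phase u s * ham k L s t * (starRingEnd ℂ) (phase u t) = ham (deco u k) L s t) ∧
  (∀ δ : ℝ, 0 ≤ δ → (∀ p q, ‖k p q‖ ≤ δ) → ∀ p q, ‖deco u k p q‖ ≤ δ) ∧
  (k.IsHermitian → (deco u k).IsHermitian)

/-- PhaseS. PROOF. `φ = contract A`. The new virtual indices are pairs of an old one and a configuration of the
`m × m` window (`d^(m^2)` of them, `Fin (D * d ^ m ^ 2) ≃ Fin D × (Fin m × Fin m → Fin d)`): the index of the edge to the
right of `x` (above `x`) carries the window at `x`. The tensor at `x` with left index `(l, a)`, right index `(r, b)`,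
lower `(dn, c)`, upper `(up, e)` is `A x s l r dn up * u b` if `b = e`, `b (0,0) = s`, and for all `(i,j)` of the window
`a (i+1, j) = b (i, j)` for `i + 1 < m` and `c (i, j+1) = b (i, j)` for `j + 1 < m`, and `0` otherwise. For given `s` the
only assignment of windows with nonzero weight is `b_x (i,j) = s (x + (i,j))`: by induction on `i + j`
(`b_x (i+1, j) = b_(x + e₁) (i, j)` and `b_x (i, j+1) = b_(x + e₂) (i, j)`; `b_x (0,0) = s x`). For `m = 0` the phase is
constant. (LocS, or pointwise products of PEPS, may be used too.) -/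
def PhaseS : Prop := ∀ (d m L D : ℕ) [NeZero L] (u : (Fin m × Fin m → Fin d) → ℂ)
  (φ : (Site L → Fin d) → ℂ), IsPEPS D φ → IsPEPS (D * d ^ m ^ 2) (fun σ => phase u σ * φ σ)

/-- SiteN. PROOF. Both terms at `v` are the operator `a` at the site `v` (`sh v (0,0) = v`, `sh v` is injective for
`N ≤ L`): entry `a (s v) (t v)` if `s = t` off `v` and `0` otherwise. -/
def SiteN : Prop := ∀ (d N L : ℕ) [NeZero L] (a : Matrix (Fin d) (Fin d) ℂ), 1 ≤ N → N ≤ L →
  ham (site1 a N : BoxOp d N) L = ham (site1 a 1 : BoxOp d 1) L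

end Pool.Agent.Q234.KG
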