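import Pool.Agent.Q234.KG.Loc
import Pool.Agent.Q234.KG.Stm3

/-!
# Project KG: neighbourhoods of decorated product Hamiltonians
-/

set_option autoImplicit false

open scoped BigOperators Matrix ComplexConjugate
open Finset Pool.Agent.TH235.PP
open Pool.Agent.Q234.KG.Gen (FinA TwoA gapped_conj)
open Pool.Agent.Q234.KG.Fin (ham_add)

namespace Pool.Agent.Q234.KG.Dec

/-- Global theorem near decorated product Hamiltonians. -/
def FinD : Prop := ∀ (d : ℕ) [NeZero d] (a : Matrix (Fin d) (Fin d) ℂ) (γ : ℝ) (f : Fin d → ℂ),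
  a.IsHermitian → 0 < γ → f ≠ 0 → IsGappedGround a γ f →
  ∀ (m : ℕ) (u : (Fin m × Fin m → Fin d) → ℂ), (∀ p, ‖u p‖ = 1) →
  ∀ (n : ℕ) (κ : ℝ), 1 ≤ n → 0 < κ →
  ∃ δ C : ℝ, 0 < δ ∧ 0 < C ∧ ∀ k : BoxOp d n, k.IsHermitian → (∀ p q, ‖k p q‖ ≤ δ) →
    ∀ (L : ℕ) [NeZero L], n + 2 * m + 1 ≤ L → ∃ Ψ : (Site L → Fin d) → ℂ, normSq Ψ = 1 ∧
      IsGappedGround (ham (deco u (site1 a 1)) L + ham k L) (γ / 2) Ψ ∧
      ∀ ε : ℝ, 0 < ε → ε ≤ 1 → ∃ (D : ℕ) (φ : (Site L → Fin d) → ℂ),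
        (D : ℝ) ≤ C * ((L : ℝ) / ε) ^ κ ∧ IsPEPS D φ ∧ normSq (φ - Ψ) ≤ ε ^ 2

/-- Two perturbations. -/
def TwoD : Prop := ∀ (d : ℕ) [NeZero d] (a : Matrix (Fin d) (Fin d) ℂ) (γ : ℝ) (f : Fin d → ℂ),
  a.IsHermitian → 0 < γ → f ≠ 0 → IsGappedGround a γ f →
  ∀ (m : ℕ) (u : (Fin m × Fin m → Fin d) → ℂ), (∀ p, ‖u p‖ = 1) →
  ∀ n : ℕ, 1 ≤ n → ∃ δ₁ : ℝ, 0 < δ₁ ∧ ∀ N : ℕ, 1 ≤ N → ∃ δ₂ : ℝ, 0 < δ₂ ∧
  ∀ k : BoxOp d n, k.IsHermitian → (∀ p q, ‖k p q‖ ≤ δ₁) → ∀ O : BoxOp d N, O.IsHermitian →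
    (∀ p q, ‖O p q‖ ≤ δ₂) → ∀ (L : ℕ) [NeZero L], n + 2 * m + 1 ≤ L → N + 2 * m + 1 ≤ L →
    ∃ Ψ : (Site L → Fin d) → ℂ, normSq Ψ = 1 ∧
      IsGappedGround (ham (deco u (site1 a 1)) L + ham k L + ham O L) (γ / 2) Ψ

section

variable {d m : ℕ} {u : (Fin m × Fin m → Fin d) → ℂ}

lemma phase_norm (hu : ∀ p, ‖u p‖ = 1) {L : ℕ} [NeZero L] (σ : Site L → Fin d) :
    ‖phase u σ‖ = 1 := by
  unfold phase
  rw [norm_prod]
  exact Finset.prod_eq_one fun v _ => hu _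

lemma phase_conj {L : ℕ} [NeZero L] (σ : Site L → Fin d) :
    phase (fun p => (starRingEnd ℂ) (u p)) σ = (starRingEnd ℂ) (phase u σ) := by
  unfold phase
  rw [map_prod]

/-- the diagonal unitary -/
noncomputable def PP (u : (Fin m × Fin m → Fin d) → ℂ) (L : ℕ) [NeZero L] :
    Matrix (Site L → Fin d) (Site L → Fin d) ℂ := Matrix.diagonal (phase u)

lemma PP_conj (L : ℕ) [NeZero L] :
    (PP u L).conjTranspose = Matrix.diagonal fun σ => (starRingEnd ℂ) (phase u σ) := by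
  unfold PP
  rw [Matrix.diagonal_conjTranspose]
  rfl

lemma conj_mul_self' (hu : ∀ p, ‖u p‖ = 1) {L : ℕ} [NeZero L] (σ : Site L → Fin d) :
    (starRingEnd ℂ) (phase u σ) * phase u σ = 1 := by
  rw [Complex.conj_mul', phase_norm hu]
  simp

lemma PP_unit (hu : ∀ p, ‖u p‖ = 1) (L : ℕ) [NeZero L] :
    (PP u L).conjTranspose * PP u L = 1 ∧ PP u L * (PP u L).conjTranspose = 1 := by
  rw [PP_conj]
  unfold PP
  rw [Matrix.diagonal_mul_diagonal, Matrix.diagonal_mul_diagonal]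
  constructor
  · rw [← Matrix.diagonal_one]
    congr 1
    funext σ
    exact conj_mul_self' hu σ
  · rw [← Matrix.diagonal_one]
    congr 1
    funext σ
    rw [mul_comm]
    exact conj_mul_self' hu σ

lemma PP_apply (L : ℕ) [NeZero L] (H : Matrix (Site L → Fin d) (Site L → Fin d) ℂ)
    (s t : Site L → Fin d) : (PP u L * H * (PP u L).conjTranspose) s t =
      phase u s * H s t * (starRingEnd ℂ) (phase u t) := by
  rw [PP_conj, Matrix.mul_diagonal]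
  unfold PP
  rw [Matrix.diagonal_mul]

lemma PP_normSq (hu : ∀ p, ‖u p‖ = 1) {L : ℕ} [NeZero L] (φ : (Site L → Fin d) → ℂ) :
    normSq (PP u L *ᵥ φ) = normSq φ := by
  unfold normSq PP
  refine Finset.sum_congr rfl fun σ _ => ?_
  rw [Matrix.mulVec_diagonal, norm_mul, phase_norm hu, one_mul]

/-- the perturbation is conjugated back -/
lemma back (hD : DecoS) (hu : ∀ p, ‖u p‖ = 1) {n L : ℕ} [NeZero L] (k : BoxOp d n) (hn : 1 ≤ n)
    (hL : n + 2 * m + 1 ≤ L) :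
    ham k L = PP u L * ham (deco (fun p => (starRingEnd ℂ) (u p)) k) L * (PP u L).conjTranspose := by
  ext s t
  have hu' : ∀ p, ‖(fun p => (starRingEnd ℂ) (u p)) p‖ = 1 := fun p => by
    rw [RCLike.norm_conj]; exact hu p
  have h1 := (hD d n m (fun p => (starRingEnd ℂ) (u p)) k hn hu').1 L hL s t
  rw [PP_apply, ← h1, phase_conj, phase_conj, Complex.conj_conj]
  have e1 := conj_mul_self' hu s
  have e2 := conj_mul_self' hu t
  calc ham k L s t = ((starRingEnd ℂ) (phase u s) * phase u s) * ham k L s t *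
        ((starRingEnd ℂ) (phase u t) * phase u t) := by rw [e1, e2]; ring
    _ = _ := by ring

lemma base (hD : DecoS) (hu : ∀ p, ‖u p‖ = 1) {L : ℕ} [NeZero L] (a : Matrix (Fin d) (Fin d) ℂ)
    (hL : 1 + 2 * m + 1 ≤ L) : ham (deco u (site1 a 1)) L =
      PP u L * ham (site1 a 1 : BoxOp d 1) L * (PP u L).conjTranspose := by
  ext s t
  rw [PP_apply]
  exact ((hD d 1 m u (site1 a 1) le_rfl hu).1 L hL s t).symm

lemma gapped_PP (hu : ∀ p, ‖u p‖ = 1) {L : ℕ} [NeZero L]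
    {H : Matrix (Site L → Fin d) (Site L → Fin d) ℂ} {Δ : ℝ} {Ψ : (Site L → Fin d) → ℂ}
    (h : IsGappedGround H Δ Ψ) :
    IsGappedGround (PP u L * H * (PP u L).conjTranspose) Δ (PP u L *ᵥ Ψ) := by
  obtain ⟨e1, e2⟩ := PP_unit hu L
  have h1 : IsGappedGround ((PP u L).conjTranspose * (PP u L * H * (PP u L).conjTranspose) *
      (PP u L).conjTranspose.conjTranspose) Δ Ψ := by
    rw [Matrix.conjTranspose_conjTranspose]
    have e3 : (PP u L).conjTranspose * (PP u L * H * (PP u L).conjTranspose) * PP u L = H := by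
      calc (PP u L).conjTranspose * (PP u L * H * (PP u L).conjTranspose) * PP u L
          = ((PP u L).conjTranspose * PP u L) * H * ((PP u L).conjTranspose * PP u L) := by
            simp only [mul_assoc]
        _ = H := by rw [e1, one_mul, mul_one]
    rw [e3]
    exact h
  have h2 := gapped_conj (U := (PP u L).conjTranspose) (by
    rw [Matrix.conjTranspose_conjTranspose]; exact e2) h1
  rwa [Matrix.conjTranspose_conjTranspose] at h2

end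

theorem finD (hF : FinA) (hD : DecoS) (hP : PhaseS) (hN : SiteN) : FinD := by
  intro d _ a γ f ha hγ hf0 hg m u hu n κ hn hκ
  obtain ⟨δ, C, hδ, hC, hmain⟩ := hF d a γ f ha hγ hf0 hg (n + 2 * m) κ (by omega) hκ
  have hd : 0 < d := Nat.pos_of_ne_zero (NeZero.ne d)
  have hdm : (0 : ℝ) < (d : ℝ) ^ m ^ 2 := by
    have : (0 : ℝ) < d := by exact_mod_cast hd
    positivity
  refine ⟨δ, C * (d : ℝ) ^ m ^ 2, hδ, by positivity, ?_⟩
  intro k hk hkδ L _ hL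
  have hu' : ∀ p, ‖(fun p => (starRingEnd ℂ) (u p)) p‖ = 1 := fun p => by
    rw [RCLike.norm_conj]; exact hu p
  obtain ⟨-, d2, d3⟩ := hD d n m (fun p => (starRingEnd ℂ) (u p)) k hn hu'
  set k' : BoxOp d (n + 2 * m) := deco (fun p => (starRingEnd ℂ) (u p)) k with hk'
  have hk'δ : ∀ p q, ‖k' p q‖ ≤ δ := d2 δ hδ.le hkδ
  have hk'h : k'.IsHermitian := d3 hk
  have hsH : ∀ N : ℕ, (site1 a N : BoxOp d N).IsHermitian := by
    intro N
    ext p q
    rw [Matrix.conjTranspose_apply]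
    unfold site1
    rw [star_prod]
    refine Finset.prod_congr rfl fun x _ => ?_
    split_ifs with h1 h2 h3 h3
    · exact ha.apply _ _
    · exact star_one ℂ
    · exact absurd h2.symm h3
    · exact absurd h3.symm h2
    · exact star_zero ℂ
  obtain ⟨Ψ, m1, m2, m3⟩ := hmain (site1 a (n + 2 * m) + k') ((hsH _).add hk'h) (fun p q => by
    rw [Matrix.add_apply, add_sub_cancel_left]; exact hk'δ p q) L (by omega)
  have hH : ham (deco u (site1 a 1)) L + ham k L =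
      PP u L * ham (site1 a (n + 2 * m) + k') L * (PP u L).conjTranspose := by
    rw [ham_add, mul_add, add_mul, hN d (n + 2 * m) L a (by omega) (by omega),
      ← base hD hu a (by omega), ← back hD hu k hn hL]
  refine ⟨PP u L *ᵥ Ψ, by rw [PP_normSq hu, m1], ?_, ?_⟩
  · rw [hH]
    exact gapped_PP hu m2
  · intro ε hε hε1
    obtain ⟨D, φ, p1, p2, p3⟩ := m3 ε hε hε1
    refine ⟨D * d ^ m ^ 2, PP u L *ᵥ φ, ?_, ?_, ?_⟩
    · push_cast
      have := mul_le_mul_of_nonneg_right p1 hdm.le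
      linarith
    · have := hP d m L D u φ p2
      have e : (PP u L *ᵥ φ) = fun σ => phase u σ * φ σ := by
        funext σ
        unfold PP
        rw [Matrix.mulVec_diagonal]
      rw [e]
      exact this
    · rw [← Matrix.mulVec_sub, PP_normSq hu]
      exact p3

theorem twoD (hT : TwoA) (hD : DecoS) (hN : SiteN) : TwoD := by
  intro d _ a γ f ha hγ hf0 hg m u hu n hn
  obtain ⟨δ, hδ, hmain⟩ := hT d a γ f ha hγ hf0 hg (n + 2 * m) (by omega)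
  refine ⟨δ, hδ, fun N hN1 => ?_⟩
  obtain ⟨δ₂, hδ₂, hmain2⟩ := hmain (N + 2 * m) (by omega)
  refine ⟨δ₂, hδ₂, ?_⟩
  intro k hk hkδ O hO hOδ L _ hL hNL
  have hu' : ∀ p, ‖(fun p => (starRingEnd ℂ) (u p)) p‖ = 1 := fun p => by
    rw [RCLike.norm_conj]; exact hu p
  obtain ⟨-, d2, d3⟩ := hD d n m (fun p => (starRingEnd ℂ) (u p)) k hn hu'
  obtain ⟨-, f2, f3⟩ := hD d N m (fun p => (starRingEnd ℂ) (u p)) O hN1 hu'
  set k' : BoxOp d (n + 2 * m) := deco (fun p => (starRingEnd ℂ) (u p)) k with hk'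
  set O' : BoxOp d (N + 2 * m) := deco (fun p => (starRingEnd ℂ) (u p)) O with hO'
  have hsH : ∀ N : ℕ, (site1 a N : BoxOp d N).IsHermitian := by
    intro N
    ext p q
    rw [Matrix.conjTranspose_apply]
    unfold site1
    rw [star_prod]
    refine Finset.prod_congr rfl fun x _ => ?_
    split_ifs with h1 h2 h3 h3
    · exact ha.apply _ _
    · exact star_one ℂ
    · exact absurd h2.symm h3
    · exact absurd h3.symm h2
    · exact star_zero ℂ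
  obtain ⟨Ψ, m1, m2⟩ := hmain2 (site1 a (n + 2 * m) + k') ((hsH _).add (d3 hk)) (fun p q => by
    rw [Matrix.add_apply, add_sub_cancel_left]; exact d2 δ hδ.le hkδ p q) O' (f3 hO)
    (f2 δ₂ hδ₂.le hOδ) L (by omega) (by omega)
  have hH : ham (deco u (site1 a 1)) L + ham k L + ham O L =
      PP u L * (ham (site1 a (n + 2 * m) + k') L + ham O' L) * (PP u L).conjTranspose := by
    rw [ham_add, mul_add, mul_add, add_mul, add_mul, hN d (n + 2 * m) L a (by omega) (by omega),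
      ← base hD hu a (by omega), ← back hD hu k hn hL, ← back hD hu O hN1 hNL]
  refine ⟨PP u L *ᵥ Ψ, by rw [PP_normSq hu, m1], ?_⟩
  rw [hH]
  exact gapped_PP hu m2

open Pool.Agent.Q234.KT (bR) in
open Pool.Agent.H4R2 (rad) in
open Pool.Agent.Y665.PE (enl) in
/-- the sum of two interactions as one interaction -/
lemma sum_box (hBox : BoxS) {d n₁ n₂ : ℕ} (k₁ : BoxOp d n₁) (k₂ : BoxOp d n₂)
    (h₁ : k₁.IsHermitian) (h₂ : k₂.IsHermitian) : ∃ (h : BoxOp d (max n₁ n₂)) (L₀ : ℕ),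
      h.IsHermitian ∧ ∀ (L : ℕ) [NeZero L], L₀ ≤ L → ham h L = ham k₁ L + ham k₂ L := by
  obtain ⟨b1, b2, b3⟩ := hBox d
  have s1 : bR n₁ ⊆ bR (max n₁ n₂) := Loc.bR_sub (le_max_left _ _)
  have s2 : bR n₂ ⊆ bR (max n₁ n₂) := Loc.bR_sub (le_max_right _ _)
  obtain ⟨h, e1, e2, -⟩ := b2 (max n₁ n₂) (enl s1 (toR k₁) + enl s2 (toR k₂))
  refine ⟨h, 2 * rad (bR (max n₁ n₂)) + 1, e2 ((Pool.Agent.Y665.PE.enl_herm s1 (b3 n₁ k₁ h₁)).add
    (Pool.Agent.Y665.PE.enl_herm s2 (b3 n₂ k₂ h₂))), ?_⟩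
  intro L _ hL
  have h3 := Pool.Agent.Y665.PE.ham_add (L := L) (bR (max n₁ n₂)) (enl s1 (toR k₁))
    (enl s2 (toR k₂)) 1
  rw [one_smul, one_smul, Pool.Agent.Y665.PE.ham_enl s1 (toR k₁) hL,
    Pool.Agent.Y665.PE.ham_enl s2 (toR k₂) hL, ← b1, ← b1] at h3
  rw [b1, e1, h3]

/-- Local theorem near decorated product Hamiltonians. -/
def LocD : Prop := ∀ (d : ℕ) (a : Matrix (Fin d) (Fin d) ℂ) (γ : ℝ) (f : Fin d → ℂ), 2 ≤ d →
  a.IsHermitian → 0 < γ → f ≠ 0 → IsGappedGround a γ f →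
  ∀ (m : ℕ) (u : (Fin m × Fin m → Fin d) → ℂ), (∀ p, ‖u p‖ = 1) → ∀ n : ℕ, 1 ≤ n →
  ∃ δ : ℝ, 0 < δ ∧ ∀ k : BoxOp d n, k.IsHermitian → (∀ p q, ‖k p q‖ ≤ δ) →
    ∃ Ψ : ∀ L : ℕ, (Site L → Fin d) → ℂ,
      (∀ (L : ℕ) [NeZero L], n + 2 * m + 1 ≤ L → normSq (Ψ L) = 1 ∧
        IsGappedGround (ham (deco u (site1 a 1)) L + ham k L) (γ / 2) (Ψ L)) ∧ Loc.Local Ψ

theorem locD (hF : FinD) (hT : TwoD) (hD : DecoS) (hBox : BoxS) (hRate : RateS) (hRed : RedS)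
    (hNear : NearS) (hTr : TrS) : LocD := by
  classical
  intro d a γ f hd ha hγ hf0 hg m u hu n hn
  have hi : NeZero d := ⟨by omega⟩
  obtain ⟨δ₁, hδ₁, htwo⟩ := hT d a γ f ha hγ hf0 hg m u hu n hn
  obtain ⟨δ', C, hδ', hC, hfin⟩ := hF d a γ f ha hγ hf0 hg m u hu n 1 hn one_pos
  refine ⟨min δ₁ δ', lt_min hδ₁ hδ', ?_⟩
  intro k hk hkδ
  have hsH : (site1 a 1 : BoxOp d 1).IsHermitian := by
    ext p q
    rw [Matrix.conjTranspose_apply]
    unfold site1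
    rw [star_prod]
    refine Finset.prod_congr rfl fun x _ => ?_
    split_ifs with h1 h2 h3 h3
    · exact ha.apply _ _
    · exact star_one ℂ
    · exact absurd h2.symm h3
    · exact absurd h3.symm h2
    · exact star_zero ℂ
  have hdH : (deco u (site1 a 1)).IsHermitian := (hD d 1 m u (site1 a 1) le_rfl hu).2.2 hsH
  obtain ⟨h, L₁, hh, hham⟩ := sum_box hBox (deco u (site1 a 1)) k hdH hk
  have hex : ∀ L : ℕ, ∃ Ψ : (Site L → Fin d) → ℂ, ∀ (_ : NeZero L), n + 2 * m + 1 ≤ L →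
      normSq Ψ = 1 ∧ IsGappedGround (ham (deco u (site1 a 1)) L + ham k L) (γ / 2) Ψ ∧
      ∀ ε : ℝ, 0 < ε → ε ≤ 1 → ∃ (D : ℕ) (φ : (Site L → Fin d) → ℂ),
        (D : ℝ) ≤ C * ((L : ℝ) / ε) ^ (1 : ℝ) ∧ IsPEPS D φ ∧ normSq (φ - Ψ) ≤ ε ^ 2 := by
    intro L
    by_cases hL : L = 0
    · exact ⟨0, fun hz => absurd hL hz.out⟩
    · have hz : NeZero L := ⟨hL⟩
      by_cases hnL : n + 2 * m + 1 ≤ L
      · obtain ⟨Ψ, h1, h2, h3⟩ := hfin k hk (fun p q => (hkδ p q).trans (min_le_right _ _)) L hnL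
        exact ⟨Ψ, fun _ _ => ⟨h1, h2, h3⟩⟩
      · exact ⟨0, fun _ h => absurd h hnL⟩
  choose Ψ hΨ using hex
  have hfam : Loc.Fam d (max (1 + 2 * m) n) h (γ / 2) (max L₁ (n + 2 * m + 1)) Ψ := by
    refine ⟨fun L hz hL => ⟨(hΨ L hz ((le_max_right _ _).trans hL)).1, ?_⟩, fun N hN => ?_,
      ⟨C, hC, ?_⟩⟩
    · rw [hham L ((le_max_left _ _).trans hL)]
      exact (hΨ L hz ((le_max_right _ _).trans hL)).2.1
    · obtain ⟨δ₂, hδ₂, h2⟩ := htwo N hN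
      refine ⟨δ₂, hδ₂, max (max L₁ (n + 2 * m + 1)) (N + 2 * m + 1), fun O hO hOc L hz hL => ?_⟩
      have hL1 : L₁ ≤ L := (le_max_left _ _).trans ((le_max_left _ _).trans hL)
      have hL2 : n + 2 * m + 1 ≤ L := (le_max_right _ _).trans ((le_max_left _ _).trans hL)
      have hL3 : N + 2 * m + 1 ≤ L := (le_max_right _ _).trans hL
      rw [hham L hL1]
      exact h2 k hk (fun p q => (hkδ p q).trans (min_le_left _ _)) O hO hOc L hL2 hL3
    · intro L hz hL ε hε hε1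
      obtain ⟨D, φ, e1, e2, e3⟩ := (hΨ L hz ((le_max_right _ _).trans hL)).2.2 ε hε hε1
      rw [Real.rpow_one] at e1
      exact ⟨D, φ, e1, e2, e3⟩
  refine ⟨Ψ, fun L hz hL => ⟨(hΨ L hz hL).1, (hΨ L hz hL).2.1⟩, Loc.local_of hTr hd fun R => ?_⟩
  obtain ⟨r₀, -, -, hboth⟩ := Pool.Agent.Y738.PE.both d hd R
  exact (hboth Ψ (Loc.poly_conv hBox hRate hRed hd hh (by positivity) hfam R)).1
    (Loc.eff_any hBox hNear hd hfam R (16 * r₀))

end Pool.Agent.Q234.KG.Dec
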