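import Pool.Agent.Q234.KT.Defs

/-!
# Project KG (Kirkwood-Thomas expansion for all local dimensions): definitions

As project KT, with `Fin d` in place of `Fin 2`. `V` is a finite set of sites, configurations are
`σ : V → Fin d` (an additive group), labels are `m : V → Fin d`, `ch m σ = ∏_v cr (m v) (σ v)` are the
characters, `co F m` are the coefficients of a function, `F = ∑_m co F m ch m`, `sp m` is the support of `m`.
The one site Hamiltonian is `(a F)(s) = ∑_c α c F(s + c)`, with the eigenvalues `e k` at the characters.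
-/

set_option autoImplicit false

open scoped BigOperators
open Finset

namespace Pool.Agent.Q234.KG

/-- the characters of `Fin d` -/
noncomputable def cr {d : ℕ} (a b : Fin d) : ℂ :=
  Complex.exp (2 * Real.pi * Complex.I * ((a : ℕ) * (b : ℕ) : ℂ) / d)

section

variable {V : Type} [Fintype V] [DecidableEq V] {d : ℕ} [NeZero d]

/-- the character with the label `m` -/
noncomputable def ch (m σ : V → Fin d) : ℂ := ∏ v, cr (m v) (σ v)

/-- the coefficient of `F` at `m` -/
noncomputable def co (F : (V → Fin d) → ℂ) (m : V → Fin d) : ℂ :=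
  ((d : ℂ) ^ Fintype.card V)⁻¹ * ∑ σ, F σ * (starRingEnd ℂ) (ch m σ)

/-- the support of a label (or of a shift) -/
def sp (m : V → Fin d) : Finset V := univ.filter fun v => m v ≠ 0

/-- the norm of `F` rooted at `S` -/
noncomputable def nm (r : ℝ) (t : Finset V → ℕ) (S : Finset V) (F : (V → Fin d) → ℂ) : ℝ :=
  ∑ m : V → Fin d, ‖co F m‖ * r ^ t (S ∪ sp m)

/-- the part of the norm of the labels whose support contains `x` -/
noncomputable def nx (r : ℝ) (t : Finset V → ℕ) (S : Finset V) (x : V) (F : (V → Fin d) → ℂ) : ℝ :=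
  ∑ m ∈ univ.filter (fun m : V → Fin d => m x ≠ 0), ‖co F m‖ * r ^ t (S ∪ sp m)

/-- the norm of a family of coefficients at the site `x` -/
noncomputable def nb (r : ℝ) (t : Finset V → ℕ) (x : V) (g : (V → Fin d) → ℂ) : ℝ :=
  ∑ m ∈ univ.filter (fun m : V → Fin d => m x ≠ 0), ((sp m).card : ℝ) * ‖g m‖ * r ^ t (sp m)

/-- `G (σ + c) - G σ` for `G = ∑_m g m ch m` -/
noncomputable def Gp (g : (V → Fin d) → ℂ) (c σ : V → Fin d) : ℂ :=
  ∑ m : V → Fin d, g m * (ch m c - 1) * ch m σ

/-- the function `exp (∑_m g m ch m)` -/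
noncomputable def Psi (g : (V → Fin d) → ℂ) (σ : V → Fin d) : ℂ :=
  Complex.exp (∑ m : V → Fin d, g m * ch m σ)

/-- the one site Hamiltonian `(a F)(s) = ∑_c α c F(s + c)` has the eigenvalues `e k`, `e 0 = 0` and
`e k ≥ 1` for `k ≠ 0` -/
structure IsOne (α : Fin d → ℂ) (e : Fin d → ℝ) : Prop where
  sum : ∀ k, ∑ c, α c * cr k c = e k
  zero : e 0 = 0
  one : ∀ k, k ≠ 0 → 1 ≤ e k

/-- the eigenvalue of the sum of the one site Hamiltonians at `ch m` -/
noncomputable def Ee (e : Fin d → ℝ) (m : V → Fin d) : ℝ := ∑ v, e (m v)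

variable {J : Type} [Fintype J]

/-- a finite range perturbation `∑_j w_j(σ) (shift by c_j)`, `w_j` depends on the spins in `B_j`, the support
of `c_j` is in `B_j` -/
structure IsPert (b m : ℕ) (t : Finset V → ℕ) (c : J → V → Fin d) (B : J → Finset V)
    (w : J → (V → Fin d) → ℂ) (ω : ℝ) : Prop where
  sub : ∀ j, sp (c j) ⊆ B j
  ne : ∀ j, (B j).Nonempty
  size : ∀ j, t (B j) ≤ b
  mult : ∀ v, (univ.filter fun j => v ∈ B j).card ≤ m
  bd : ∀ j k, ‖co (w j) k‖ ≤ ω
  supp : ∀ j k, ¬ sp k ⊆ B j → co (w j) k = 0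

/-- the Hamiltonian `∑_u a_u + ∑_j w_j (shift by c_j)` -/
noncomputable def Hf (α : Fin d → ℂ) (c : J → V → Fin d) (w : J → (V → Fin d) → ℂ)
    (F : (V → Fin d) → ℂ) (σ : V → Fin d) : ℂ :=
  ∑ u, ∑ a, α a * F (σ + Pi.single u a) + ∑ j, w j σ * F (σ + c j)

/-- the nonlinear part of the eigenvalue equation -/
noncomputable def Ph (α : Fin d → ℂ) (c : J → V → Fin d) (w : J → (V → Fin d) → ℂ)
    (g : (V → Fin d) → ℂ) (σ : V → Fin d) : ℂ :=
  ∑ u, ∑ a, α a * (Complex.exp (Gp g (Pi.single u a) σ) - 1 - Gp g (Pi.single u a) σ) +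
    ∑ j, w j σ * Complex.exp (Gp g (c j) σ)

/-- the map whose fixed points are the solutions -/
noncomputable def Tm (α : Fin d → ℂ) (e : Fin d → ℝ) (c : J → V → Fin d)
    (w : J → (V → Fin d) → ℂ) (g : (V → Fin d) → ℂ) (m : V → Fin d) : ℂ :=
  if m = 0 then 0 else -((Ee e m : ℝ) : ℂ)⁻¹ * co (Ph α c w g) m

/-- the bound of the perturbation terms which is used -/
def JB (r δ κ : ℝ) (t : Finset V → ℕ) (c : J → V → Fin d) (B : J → Finset V)
    (w : J → (V → Fin d) → ℂ) : Prop :=
  ∀ (g g' : (V → Fin d) → ℂ) (η : ℝ), (∀ x, nb r t x g ≤ δ) → (∀ x, nb r t x g' ≤ δ) →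
    (∀ x, nb r t x (fun m => g m - g' m) ≤ η) → ∀ x,
      ∑ j, nx r t (B j) x (fun σ => w j σ * (Complex.exp (Gp g (c j) σ) -
        Complex.exp (Gp g' (c j) σ))) ≤ κ * η ∧
      ∑ j, nx r t (B j) x (fun σ => w j σ * Complex.exp (Gp g (c j) σ)) ≤ κ

/-- the polymers: nonempty sets of sites -/
abbrev Pol (V : Type) : Type := {X : Finset V // X.Nonempty}

/-- the sets of typed polymers through `v` of total size at most `s`; a type of `X` is a label with support
in `X` -/
def typ (d : ℕ) [NeZero d] (h : Pol V → Finset V) (s : ℕ) (v : V) :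
    Finset (Finset (Pol V × (V → Fin d))) :=
  univ.filter fun Q => (∀ p ∈ Q, sp p.2 ⊆ p.1.1 ∧ v ∈ h p.1) ∧ ∑ p ∈ Q, (h p.1).card ≤ s

/-- the weight of the polymer `X` in `exp (∑_m g m ch m)` -/
noncomputable def wX (g : (V → Fin d) → ℂ) (X : Finset V) (σ : V → Fin d) : ℂ :=
  Complex.exp (∑ m ∈ univ.filter (fun m : V → Fin d => sp m = X), g m * ch m σ) - 1

end

section

open Pool.Agent.TH235.PP

/-- the one site interaction `a_(0,0)`, `a s t = α (t - s)`, on the `n × n` box -/
noncomputable def site {d : ℕ} [NeZero d] (α : Fin d → ℂ) (n : ℕ) : BoxOp d n := fun p q =>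
  ∑ c : Fin d, if ∀ x : Fin n × Fin n,
    q x = if (x.1 : ℕ) = 0 ∧ (x.2 : ℕ) = 0 then p x + c else p x then α c else 0

/-- the shift by `a` on the box at `u` -/
def push {n L d : ℕ} [NeZero d] (u : Site L) (a : Fin n × Fin n → Fin d) (v : Site L) : Fin d :=
  ∑ x : Fin n × Fin n, if sh u x = v then a x else 0

/-- the functions `w_j`, `j = (u, a)`: the entries of `h - site α n` at the spins in the box at `u` and their
shifts by `a` -/
noncomputable def wj {d n : ℕ} [NeZero d] (α : Fin d → ℂ) (h : BoxOp d n) {L : ℕ}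
    (j : Site L × (Fin n × Fin n → Fin d)) (σ : Site L → Fin d) : ℂ :=
  h (fun x => σ (sh j.1 x)) (fun x => σ (sh j.1 x) + j.2 x) -
    site α n (fun x => σ (sh j.1 x)) (fun x => σ (sh j.1 x) + j.2 x)

end

end Pool.Agent.Q234.KG
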