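import Pool.Agent.Q234.KG.Stm
import Pool.Agent.Q234.KT.Fin

/-!
# Project KG: the assembly for one site Hamiltonians in the Fourier basis
-/

set_option autoImplicit false

open scoped BigOperators Matrix
open Finset Pool.Agent.TH235.PP
open Pool.Agent.Q234.KT (IsSize Zc Conn bx HullS CapS)
open Pool.Agent.Q234.KT.Fin (normSq_smul normSq_pos eig_real gapped_smul)

namespace Pool.Agent.Q234.KG.Fin

section aux

variable {V : Type} [Fintype V] [DecidableEq V] {d : ℕ} [NeZero d]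

lemma Psi_ne (g : (V → Fin d) → ℂ) (σ : V → Fin d) : Psi g σ ≠ 0 := Complex.exp_ne_zero _

lemma l1_le_nb {r : ℝ} (hr : 1 ≤ r) (t : Finset V → ℕ) (x : V) (g : (V → Fin d) → ℂ) :
    ∑ m ∈ univ.filter (fun m : V → Fin d => m x ≠ 0), ‖g m‖ ≤ nb r t x g := by
  unfold nb
  refine Finset.sum_le_sum fun m hm => ?_
  have h1 : (1 : ℝ) ≤ (sp m).card := by
    have h0 : 0 < (sp m).card := Finset.card_pos.2 ⟨x, by
      unfold sp
      rw [Finset.mem_filter]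
      exact ⟨Finset.mem_univ _, (Finset.mem_filter.1 hm).2⟩⟩
    exact_mod_cast h0
  have h2 : (1 : ℝ) ≤ r ^ t (sp m) := one_le_pow₀ hr
  have h3 : 0 ≤ ‖g m‖ := norm_nonneg _
  calc ‖g m‖ = 1 * ‖g m‖ * 1 := by ring
    _ ≤ ((sp m).card : ℝ) * ‖g m‖ * r ^ t (sp m) := by
      apply mul_le_mul (mul_le_mul_of_nonneg_right h1 h3) h2 zero_le_one
      positivity

end aux

lemma ham_add {d n L : ℕ} [NeZero L] (h k : BoxOp d n) : ham (h + k) L = ham h L + ham k L := by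
  unfold ham
  rw [← Finset.sum_add_distrib]
  refine Finset.sum_congr rfl fun u _ => ?_
  ext s t
  rw [Matrix.add_apply]
  unfold term
  split_ifs
  · rfl
  · simp

lemma ham_herm' {d n L : ℕ} [NeZero L] {h : BoxOp d n} (hh : h.IsHermitian) :
    (ham h L).IsHermitian := ham_herm h hh

/-- the matrix of the sum of two interactions -/
lemma two_mat (hM : MatS) {d n N L : ℕ} [NeZero d] [NeZero L] (α : Fin d → ℂ) (h : BoxOp d n)
    (O : BoxOp d N) (hn : 1 ≤ n) (hN : 1 ≤ N) (hnL : n ≤ L) (hNL : N ≤ L)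
    (F : (Site L → Fin d) → ℂ) (σ : Site L → Fin d) :
    (ham h L + ham O L).mulVec F σ = Hf α
      (Sum.elim (fun j : Site L × (Fin n × Fin n → Fin d) => push j.1 j.2)
        (fun j : Site L × (Fin N × Fin N → Fin d) => push j.1 j.2))
      (Sum.elim (wj α h) (wj α (site α N + O))) F σ := by
  obtain ⟨δ, hδ⟩ : ∃ δ : ℝ, ∀ p q, ‖h p q - site α n p q‖ ≤ δ := by
    refine ⟨∑ p, ∑ q, ‖h p q - site α n p q‖, fun p q => ?_⟩
    refine le_trans ?_ (Finset.single_le_sum (f := fun p => ∑ q, ‖h p q - site α n p q‖)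
      (fun _ _ => Finset.sum_nonneg fun _ _ => norm_nonneg _) (Finset.mem_univ p))
    exact Finset.single_le_sum (f := fun q => ‖h p q - site α n p q‖) (fun _ _ => norm_nonneg _)
      (Finset.mem_univ q)
  obtain ⟨δ', hδ'⟩ : ∃ δ : ℝ, ∀ p q, ‖(site α N + O) p q - site α N p q‖ ≤ δ := by
    refine ⟨∑ p, ∑ q, ‖(site α N + O) p q - site α N p q‖, fun p q => ?_⟩
    refine le_trans ?_ (Finset.single_le_sum (f := fun p => ∑ q, ‖(site α N + O) p q - site α N p q‖)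
      (fun _ _ => Finset.sum_nonneg fun _ _ => norm_nonneg _) (Finset.mem_univ p))
    exact Finset.single_le_sum (f := fun q => ‖(site α N + O) p q - site α N p q‖)
      (fun _ _ => norm_nonneg _) (Finset.mem_univ q)
  have h1 := (hM d n L α h δ hn hnL hδ).1 F σ
  have h2 := (hM d N L α (site α N + O) δ' hN hNL hδ').1 F σ
  have h3 := (hM d N L α (site α N) 0 hN hNL (fun p q => by simp)).1 F σ
  have h4 : ∀ (j : Site L × (Fin N × Fin N → Fin d)), wj α (site α N) j σ = 0 := fun j => by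
    unfold wj
    exact sub_self _
  have h5 : (ham O L).mulVec F σ = (ham (site α N + O) L).mulVec F σ - (ham (site α N) L).mulVec F σ := by
    rw [ham_add, Matrix.add_mulVec, Pi.add_apply]
    ring
  rw [Matrix.add_mulVec, Pi.add_apply, h5, h1, h2, h3]
  unfold Hf
  rw [Fintype.sum_sum_type]
  simp only [Sum.elim_inl, Sum.elim_inr, h4, zero_mul, Finset.sum_const_zero, add_zero]
  ring

lemma peps_smulG {d L : ℕ} [NeZero L] {D : ℕ} {ψ : (Site L → Fin d) → ℂ} (h : IsPEPS D ψ) (c : ℂ) :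
    IsPEPS D (c • ψ) := by
  classical
  obtain ⟨A, rfl⟩ := h
  refine ⟨fun x a l r dn up => (if x = 0 then c else 1) * A x a l r dn up, ?_⟩
  funext s
  unfold contract
  simp only [Pi.smul_apply, smul_eq_mul, Finset.mul_sum]
  refine Finset.sum_congr rfl fun h _ => Finset.sum_congr rfl fun v _ => ?_
  rw [Finset.prod_mul_distrib]
  congr 1
  rw [Finset.prod_ite_eq']
  simp

/-- the solution for one torus and two interactions -/
lemma solve2 (hJ : JPart) (hC : ContrS) (hF : FixS) (hE : EigS) (hG : GapS) (hL1 : L1S)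
    (hH : HullS) (hM : MatS) (d : ℕ) [NeZero d] (α : Fin d → ℂ) (e : Fin d → ℝ) (h1 : IsOne α e)
    (n : ℕ) (r : ℝ) (hn : 1 ≤ n) (hr : 1 ≤ r) : ∃ δ₁ : ℝ, 0 < δ₁ ∧ ∀ N : ℕ, 1 ≤ N →
    ∃ δ₂ : ℝ, 0 < δ₂ ∧ ∀ h : BoxOp d n, h.IsHermitian → (∀ p q, ‖h p q - site α n p q‖ ≤ δ₁) →
    ∀ O : BoxOp d N, O.IsHermitian → (∀ p q, ‖O p q‖ ≤ δ₂) →
    ∀ (L : ℕ) [NeZero L], n ≤ L → N ≤ L →
    ∃ (hh : Finset (Site L) → Finset (Site L)) (g : (Site L → Fin d) → ℂ),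
      (∀ X, X ⊆ hh X) ∧ (∀ X, Conn (hh X)) ∧
      (∀ (v : Site L) (k : ℕ), ((univ.image hh).filter fun S => v ∈ S ∧ S.card = k).card ≤ 16 ^ k) ∧
      g 0 = 0 ∧ (∀ x, nb r (fun X => (hh X).card) x g ≤ 1 / 4) ∧
      IsGappedGround (ham h L + ham O L) (1 / 2) (Psi g) := by
  classical
  set A : ℝ := ∑ a, ‖α a‖ with hA
  have hA0 : 0 ≤ A := Finset.sum_nonneg fun _ _ => norm_nonneg _
  set δ : ℝ := 1 / (192 * (A + 1)) with hδdef
  have hδ : 0 < δ := by positivity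
  have hδ1 : δ ≤ 1 / 192 := by
    rw [hδdef]
    apply one_div_le_one_div_of_le (by norm_num)
    nlinarith
  obtain ⟨K₁, hK₁, hJ₁⟩ := hJ d (n ^ 2) (n ^ 2 * d ^ n ^ 2) r hr
  obtain ⟨K₁', hK₁', hL₁⟩ := hL1 d (n ^ 2) (n ^ 2 * d ^ n ^ 2)
  refine ⟨min (δ / (4 * K₁)) (1 / (32 * K₁')), lt_min (by positivity) (by positivity), ?_⟩
  set δ₁ : ℝ := min (δ / (4 * K₁)) (1 / (32 * K₁')) with hδ₁
  have hδ₁0 : 0 < δ₁ := lt_min (by positivity) (by positivity)
  have e1 : K₁ * δ₁ ≤ δ / 4 := by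
    have := mul_le_mul_of_nonneg_left (min_le_left (δ / (4 * K₁)) (1 / (32 * K₁'))) hK₁.le
    refine this.trans (le_of_eq ?_)
    field_simp
  have e1' : K₁' * δ₁ ≤ 1 / 32 := by
    have := mul_le_mul_of_nonneg_left (min_le_right (δ / (4 * K₁)) (1 / (32 * K₁'))) hK₁'.le
    refine this.trans (le_of_eq ?_)
    field_simp
  intro N hN
  obtain ⟨K₂, hK₂, hJ₂⟩ := hJ d (N ^ 2) (N ^ 2 * d ^ N ^ 2) r hr
  obtain ⟨K₂', hK₂', hL₂⟩ := hL1 d (N ^ 2) (N ^ 2 * d ^ N ^ 2)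
  refine ⟨min (δ / (4 * K₂)) (1 / (32 * K₂')), lt_min (by positivity) (by positivity), ?_⟩
  set δ₂ : ℝ := min (δ / (4 * K₂)) (1 / (32 * K₂')) with hδ₂
  have hδ₂0 : 0 < δ₂ := lt_min (by positivity) (by positivity)
  have e2 : K₂ * δ₂ ≤ δ / 4 := by
    have := mul_le_mul_of_nonneg_left (min_le_left (δ / (4 * K₂)) (1 / (32 * K₂'))) hK₂.le
    refine this.trans (le_of_eq ?_)
    field_simp
  have e2' : K₂' * δ₂ ≤ 1 / 32 := by
    have := mul_le_mul_of_nonneg_left (min_le_right (δ / (4 * K₂)) (1 / (32 * K₂'))) hK₂'.le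
    refine this.trans (le_of_eq ?_)
    field_simp
  intro h hher hclose O hOher hO L _ hnL hNL
  obtain ⟨hh, hh0, hh1, hh2, hh3, hh4, hh5⟩ := hH L
  set t : Finset (Site L) → ℕ := fun X => (hh X).card with ht
  have hP1 := (hM d n L α h δ₁ hn hnL hclose).2 t (fun u => hh5 n u)
  have hP2 := (hM d N L α (site α N + O) δ₂ hN hNL (fun p q => by
    rw [Matrix.add_apply, add_sub_cancel_left]; exact hO p q)).2 t (fun u => hh5 N u)
  set c : (Site L × (Fin n × Fin n → Fin d)) ⊕ (Site L × (Fin N × Fin N → Fin d)) →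
      Site L → Fin d :=
    Sum.elim (fun j : Site L × (Fin n × Fin n → Fin d) => push j.1 j.2)
      (fun j : Site L × (Fin N × Fin N → Fin d) => push j.1 j.2) with hc
  set B : (Site L × (Fin n × Fin n → Fin d)) ⊕ (Site L × (Fin N × Fin N → Fin d)) →
      Finset (Site L) :=
    Sum.elim (fun j : Site L × (Fin n × Fin n → Fin d) => bx n j.1)
      (fun j : Site L × (Fin N × Fin N → Fin d) => bx N j.1) with hB
  set w : (Site L × (Fin n × Fin n → Fin d)) ⊕ (Site L × (Fin N × Fin N → Fin d)) →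
      (Site L → Fin d) → ℂ := Sum.elim (wj α h) (wj α (site α N + O)) with hw
  have hJB : JB r δ (δ / 2) t c B w := by
    intro g g' η hg hg' hgg x
    have hη : 0 ≤ η := by
      refine le_trans ?_ (hgg x)
      unfold nb
      exact Finset.sum_nonneg fun _ _ => by positivity
    obtain ⟨a1, a2⟩ := hJ₁ (Site L) _ t _ _ _ δ₁ δ η hh3 hδ₁0.le hP1 (by linarith) g g' hg hg' hgg x
    obtain ⟨b1, b2⟩ := hJ₂ (Site L) _ t _ _ _ δ₂ δ η hh3 hδ₂0.le hP2 (by linarith) g g' hg hg' hgg x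
    rw [hc, hB, hw]
    rw [Fintype.sum_sum_type, Fintype.sum_sum_type]
    simp only [Sum.elim_inl, Sum.elim_inr]
    constructor
    · have f1 : K₁ * δ₁ * η ≤ δ / 4 * η := mul_le_mul_of_nonneg_right e1 hη
      have f2 : K₂ * δ₂ * η ≤ δ / 4 * η := mul_le_mul_of_nonneg_right e2 hη
      linarith
    · linarith
  obtain ⟨hC3, hC4⟩ := hC d α e (Site L) _ t c B w r δ (δ / 2) h1 hh3 hr hδ le_rfl le_rfl hJB
  obtain ⟨g, hg0, hg1, hg2⟩ := hF d (Site L) t r δ (Tm α e c w) hr hδ.le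
    (fun g => by unfold Tm; rw [if_pos rfl]) hC3 hC4
  refine ⟨hh, g, hh1, hh2, hh4, hg0, fun x => (hg1 x).trans (by linarith), ?_⟩
  have hE1 := hE d α e (Site L) _ c w g h1 hg2
  have hg3 : ∀ x : Site L, ∑ m ∈ univ.filter (fun m : Site L → Fin d => m x ≠ 0), ‖g m‖ ≤ δ :=
    fun x => (l1_le_nb hr t x g).trans (hg1 x)
  have hg4 : δ ≤ 1 / (32 * (A + 1)) := by
    rw [hδdef]
    apply one_div_le_one_div_of_le (by positivity)
    nlinarith
  have hsub : ∀ j, sp (c j) ⊆ B j := by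
    rintro (j | j)
    · exact hP1.sub j
    · exact hP2.sub j
  have hthird : ∀ x, ∑ j ∈ univ.filter (fun j => x ∈ B j), ∑ m : Site L → Fin d,
      ‖co (fun σ => w j σ * Complex.exp (Gp g (c j) σ)) m‖ ≤ 1 / 16 := by
    intro x
    have a1 := hL₁ (Site L) _ t _ _ _ δ₁ g hh3 hδ₁0.le hP1 (fun x => (hg3 x).trans (by linarith)) x
    have b1 := hL₂ (Site L) _ t _ _ _ δ₂ g hh3 hδ₂0.le hP2 (fun x => (hg3 x).trans (by linarith)) x
    rw [Finset.sum_filter] at a1 b1 ⊢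
    rw [Fintype.sum_sum_type]
    simp only [hc, hB, hw, Sum.elim_inl, Sum.elim_inr]
    linarith
  set E := co (Ph α c w g) 0 with hEdef
  have hmat : ∀ F σ, (ham h L + ham O L).mulVec F σ = Hf α c w F σ := fun F σ =>
    two_mat hM α h O hn hN hnL hNL F σ
  have hH1 : (ham h L + ham O L).mulVec (Psi g) = E • Psi g := by
    funext σ
    rw [hmat, hE1, Pi.smul_apply, smul_eq_mul]
  have hpos : 0 < normSq (Psi g) := normSq_pos (fun _ => 0) (Psi_ne g _)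
  have hHerm : (ham h L + ham O L).IsHermitian := (ham_herm h hher).add (ham_herm O hOher)
  have hreal := eig_real hHerm hpos hH1
  have key : ∀ (E' : ℝ) (φ : (Site L → Fin d) → ℂ), (ham h L + ham O L).mulVec φ = (E' : ℂ) • φ →
      E' < E.re + 1 / 2 → ∃ z : ℂ, φ = z • Psi g := by
    intro E' φ h1' h2
    obtain ⟨z, hz⟩ := hG d α e (Site L) _ c B w g E ((E' : ℂ) - E) φ h1 hsub
      (fun x => (hg3 x).trans hg4) hthird hE1
      (by rw [Complex.sub_re, Complex.ofReal_re]; linarith) (fun σ => by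
        rw [← hmat, h1', Pi.smul_apply, smul_eq_mul]; ring)
    exact ⟨z, funext hz⟩
  refine ⟨E.re, by rw [hH1, ← hreal], ?_, ?_⟩
  · intro φ h1'
    exact key E.re φ h1' (by linarith)
  · intro E' φ h0 h1'
    by_cases h2 : E.re + 1 / 2 ≤ E'
    · exact Or.inr h2
    · left
      push Not at h2
      obtain ⟨z, hz⟩ := key E' φ h1' h2
      have h3 : (E' : ℂ) • φ = E • φ := by
        rw [← h1', hz, Matrix.mulVec_smul, hH1, smul_comm]
      have h4 : ∃ σ, φ σ ≠ 0 := by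
        by_contra hcon
        push Not at hcon
        exact h0 (funext hcon)
      obtain ⟨σ, hσ⟩ := h4
      have h5 := congrFun h3 σ
      rw [Pi.smul_apply, Pi.smul_apply, smul_eq_mul, smul_eq_mul] at h5
      have h6 := mul_right_cancel₀ hσ h5
      rw [← h6, Complex.ofReal_re]

/-- the truncated sum -/
noncomputable def trunc {L d : ℕ} [NeZero L] [NeZero d] (hh : Finset (Site L) → Finset (Site L))
    (g : (Site L → Fin d) → ℂ) (s : ℕ) (σ : Site L → Fin d) : ℂ :=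
  Zc (fun X : Pol (Site L) => hh X.1) (fun X => wX g X.1 σ) (fun _ => s)

/-- the PEPS for one torus -/
lemma approx (hCa : CapS) (hR : RepS) (hCn : CntS) (hW : WtS) (hPd : PrdS) {d L : ℕ} [NeZero d]
    [NeZero L] {hh : Finset (Site L) → Finset (Site L)} {g : (Site L → Fin d) → ℂ} {q : ℝ}
    (hq : 1 ≤ q) (h1 : ∀ X, X ⊆ hh X) (h2 : ∀ X, Conn (hh X))
    (h3 : ∀ (v : Site L) (k : ℕ), ((univ.image hh).filter fun S => v ∈ S ∧ S.card = k).card ≤ 16 ^ k)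
    (h4 : g 0 = 0) (h5 : ∀ x, nb (128 * q) (fun X => (hh X).card) x g ≤ 1 / 4) {ε : ℝ} (hε : 0 < ε)
    (hε1 : ε ≤ 1) {s : ℕ} (hs : (1 + 2 / q ^ s) ^ (L ^ 2) - 1 ≤ ε / 4) :
    IsPEPS (2 * (128 * d) ^ s) (trunc hh g s) ∧
      normSq (trunc hh g s - Psi g) ≤ ε ^ 2 * normSq (Psi g) := by
  classical
  have himg : ∀ (v : Site L) (k : ℕ), ((univ.image
      (fun X : Pol (Site L) => hh X.1)).filter
        fun S => v ∈ S ∧ S.card = k).card ≤ 16 ^ k := by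
    intro v k
    refine le_trans (Finset.card_le_card ?_) (h3 v k)
    intro S hS
    rw [Finset.mem_filter, Finset.mem_image] at hS ⊢
    obtain ⟨⟨X, -, rfl⟩, h⟩ := hS
    exact ⟨⟨X.1, Finset.mem_univ _, rfl⟩, h⟩
  constructor
  · have hcard : ∀ v, (typ d (fun X : Pol (Site L) => hh X.1) s v).card ≤ 2 * (128 * d) ^ s := by
      intro v
      have h6 := hCn d (Site L) (fun X : Pol (Site L) => hh X.1) 16 s v
        (by norm_num) (fun X => h1 X.1) himg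
      have h7 : (2 * (8 * ((16 : ℕ) : ℝ) * (d : ℝ)) ^ s) = ((2 * (128 * d) ^ s : ℕ) : ℝ) := by
        push_cast; norm_num
      rw [h7] at h6
      exact_mod_cast h6
    have h8 := hR d L (fun X : Pol (Site L) => hh X.1) (fun X l => co (wX g X.1) l) s
      (2 * (128 * d) ^ s) (fun X => h1 X.1) (fun X => h2 X.1) hcard
    have h9 : trunc hh g s = fun σ => Zc (fun X : Pol (Site L) => hh X.1)
        (fun X => ∑ l ∈ univ.filter (fun l : Site L → Fin d => sp l ⊆ X.1),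
          co (wX g X.1) l * ch l σ) (fun _ => s) := by
      funext σ
      unfold trunc
      congr 1
      funext X
      exact (hPd d (Site L) g h4 σ).2 X
    rw [h9]
    exact h8
  · have hb : ∀ σ, ‖Psi g σ - trunc hh g s σ‖ ≤ ε / 4 * ‖trunc hh g s σ‖ := by
      intro σ
      have h6 := hW d (Site L) hh 16 (128 * q) q g (by norm_num) hq (by push_cast; linarith) h1 h3 h5 σ
      have h7 := hCa (Site L) (Pol (Site L))
        (fun X => hh X.1) (fun X => wX g X.1 σ) q s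
        (fun X => X.2.mono (h1 X.1)) hq h6
      rw [← (hPd d (Site L) g h4 σ).1] at h7
      have h8 : Fintype.card (Site L) = L ^ 2 := by
        rw [Fintype.card_prod, ZMod.card, sq]
      rw [h8] at h7
      exact h7.trans (mul_le_mul_of_nonneg_right hs (norm_nonneg _))
    have hb2 : ∀ σ, ‖(trunc hh g s - Psi g) σ‖ ≤ ε * ‖Psi g σ‖ := by
      intro σ
      have h6 := hb σ
      have h7 : ‖trunc hh g s σ‖ ≤ ‖Psi g σ‖ + ‖Psi g σ - trunc hh g s σ‖ := by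
        have := norm_sub_le (Psi g σ) (Psi g σ - trunc hh g s σ)
        rwa [sub_sub_cancel] at this
      have h8 : ‖(trunc hh g s - Psi g) σ‖ = ‖Psi g σ - trunc hh g s σ‖ := by
        rw [Pi.sub_apply, norm_sub_rev]
      rw [h8]
      have h9 := norm_nonneg (Psi g σ - trunc hh g s σ)
      have h10 := norm_nonneg (Psi g σ)
      nlinarith
    unfold normSq
    rw [Finset.mul_sum]
    refine Finset.sum_le_sum fun σ _ => ?_
    have := hb2 σ
    calc ‖(trunc hh g s - Psi g) σ‖ ^ 2 ≤ (ε * ‖Psi g σ‖) ^ 2 :=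
          pow_le_pow_left₀ (norm_nonneg _) this 2
      _ = ε ^ 2 * ‖Psi g σ‖ ^ 2 := by ring

/-- Two perturbations: unique ground states, uniformly in the size. -/
def TwoC : Prop := ∀ (d : ℕ) [NeZero d] (α : Fin d → ℂ) (e : Fin d → ℝ), IsOne α e → ∀ n : ℕ,
  1 ≤ n → ∃ δ₁ : ℝ, 0 < δ₁ ∧ ∀ N : ℕ, 1 ≤ N → ∃ δ₂ : ℝ, 0 < δ₂ ∧ ∀ h : BoxOp d n, h.IsHermitian →
    (∀ p q, ‖h p q - site α n p q‖ ≤ δ₁) → ∀ O : BoxOp d N, O.IsHermitian →
    (∀ p q, ‖O p q‖ ≤ δ₂) → ∀ (L : ℕ) [NeZero L], n ≤ L → N ≤ L →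
    ∃ Ψ : (Site L → Fin d) → ℂ, normSq Ψ = 1 ∧ IsGappedGround (ham h L + ham O L) (1 / 2) Ψ

/-- The PEPS theorem for one site Hamiltonians in the Fourier basis. -/
def FinC : Prop := ∀ (d : ℕ) [NeZero d] (α : Fin d → ℂ) (e : Fin d → ℝ), IsOne α e →
  ∀ (n : ℕ) (κ : ℝ), 1 ≤ n → 0 < κ → ∃ δ C : ℝ, 0 < δ ∧ 0 < C ∧ ∀ h : BoxOp d n, h.IsHermitian →
    (∀ p q, ‖h p q - site α n p q‖ ≤ δ) → ∀ (L : ℕ) [NeZero L], n ≤ L →
    ∃ Ψ : (Site L → Fin d) → ℂ, normSq Ψ = 1 ∧ IsGappedGround (ham h L) (1 / 2) Ψ ∧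
      ∀ ε : ℝ, 0 < ε → ε ≤ 1 → ∃ (D : ℕ) (φ : (Site L → Fin d) → ℂ),
        (D : ℝ) ≤ C * ((L : ℝ) / ε) ^ κ ∧ IsPEPS D φ ∧ normSq (φ - Ψ) ≤ ε ^ 2

lemma unit_of {S : Type} [Fintype S] {Ψ : S → ℂ} (hpos : 0 < normSq Ψ) :
    ∃ c : ℂ, c ≠ 0 ∧ ‖c‖ ^ 2 = (normSq Ψ)⁻¹ ∧ normSq (c • Ψ) = 1 := by
  have hsq : 0 < Real.sqrt (normSq Ψ) := Real.sqrt_pos.2 hpos
  have hcn : ‖(((Real.sqrt (normSq Ψ))⁻¹ : ℝ) : ℂ)‖ ^ 2 = (normSq Ψ)⁻¹ := by
    rw [Complex.norm_real, Real.norm_eq_abs, abs_of_pos (by positivity), inv_pow,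
      Real.sq_sqrt hpos.le]
  refine ⟨(((Real.sqrt (normSq Ψ))⁻¹ : ℝ) : ℂ), ?_, hcn, ?_⟩
  · exact_mod_cast (inv_pos.2 hsq).ne'
  · rw [normSq_smul, hcn, inv_mul_cancel₀ hpos.ne']

theorem two (hJ : JPart) (hC : ContrS) (hF : FixS) (hE : EigS) (hG : GapS) (hL1 : L1S)
    (hH : HullS) (hM : MatS) : TwoC := by
  intro d _ α e h1 n hn
  obtain ⟨δ₁, hδ₁, h2⟩ := solve2 hJ hC hF hE hG hL1 hH hM d α e h1 n 1 hn le_rfl
  refine ⟨δ₁, hδ₁, fun N hN => ?_⟩
  obtain ⟨δ₂, hδ₂, h3⟩ := h2 N hN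
  refine ⟨δ₂, hδ₂, fun h hh hc O hO hOc L _ hnL hNL => ?_⟩
  obtain ⟨_, g, -, -, -, -, -, h6⟩ := h3 h hh hc O hO hOc L hnL hNL
  obtain ⟨c, hc0, -, hc2⟩ := unit_of (normSq_pos (fun _ => 0) (Psi_ne g _))
  exact ⟨c • Psi g, hc2, gapped_smul h6 hc0⟩

theorem fin (hJ : JPart) (hC : ContrS) (hF : FixS) (hE : EigS) (hG : GapS) (hL1 : L1S)
    (hH : HullS) (hM : MatS) (hCa : CapS) (hR : RepS) (hCn : CntS) (hW : WtS) (hPd : PrdS)
    (hA : ArithS) : FinC := by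
  classical
  intro d _ α e h1 n κ hn hκ
  have hd : (1 : ℝ) ≤ d := by exact_mod_cast Nat.one_le_iff_ne_zero.2 (NeZero.ne d)
  obtain ⟨q, C, hq, hC0, hA1⟩ := hA (128 * d) κ (by linarith) hκ
  obtain ⟨δ, hδ, hS⟩ := solve2 hJ hC hF hE hG hL1 hH hM d α e h1 n (128 * q) hn (by linarith)
  obtain ⟨δ₂, hδ₂, hS2⟩ := hS 1 le_rfl
  refine ⟨δ, C, hδ, hC0, ?_⟩
  intro h hher hclose L _ hL
  have hL1' : 1 ≤ L := Nat.one_le_iff_ne_zero.2 (NeZero.ne L)
  obtain ⟨hh, g, h1', h2, h3, h4, h5, h6⟩ := hS2 h hher hclose 0 Matrix.isHermitian_zero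
    (fun p q => by simpa using hδ₂.le) L hL hL1'
  have hham0 : ham (0 : BoxOp d 1) L = 0 := by
    have := ham_add (L := L) (0 : BoxOp d 1) 0
    rw [add_zero] at this
    exact left_eq_add.mp this
  rw [hham0, add_zero] at h6
  obtain ⟨c, hc0, hcn, hc2⟩ := unit_of (normSq_pos (fun _ => 0) (Psi_ne g _))
  have hpos : 0 < normSq (Psi g) := normSq_pos (fun _ => 0) (Psi_ne g _)
  refine ⟨c • Psi g, hc2, gapped_smul h6 hc0, ?_⟩
  intro ε hε hε1
  obtain ⟨s, hs1, hs2⟩ := hA1 L ε hL1' hε hε1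
  obtain ⟨h7, h8⟩ := approx hCa hR hCn hW hPd hq h1' h2 h3 h4 h5 hε hε1 hs1
  refine ⟨2 * (128 * d) ^ s, c • trunc hh g s, ?_, ?_, ?_⟩
  · push_cast
    linarith
  · exact peps_smulG h7 c
  · rw [← smul_sub, normSq_smul, hcn]
    calc (normSq (Psi g))⁻¹ * normSq (trunc hh g s - Psi g)
        ≤ (normSq (Psi g))⁻¹ * (ε ^ 2 * normSq (Psi g)) :=
          mul_le_mul_of_nonneg_left h8 (by positivity)
      _ = ε ^ 2 := by field_simp

end Pool.Agent.Q234.KG.Fin
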