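import Pool.Agent.Q234.KG.Fin

/-!
# Project KG: arbitrary one site Hamiltonians with a unique ground state
-/

set_option autoImplicit false

open scoped BigOperators Matrix
open Finset Pool.Agent.TH235.PP
open Pool.Agent.Q234.KG.Fin (TwoC FinC)

namespace Pool.Agent.Q234.KG.Gen

section lin

variable {S : Type} [Fintype S] [DecidableEq S]

lemma gapped_conj {H U : Matrix S S ℂ} {Δ : ℝ} {Ψ : S → ℂ} (h1 : U.conjTranspose * U = 1)
    (h : IsGappedGround (U * H * U.conjTranspose) Δ Ψ) :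
    IsGappedGround H Δ (U.conjTranspose *ᵥ Ψ) := by
  obtain ⟨E, e1, e2, e3⟩ := h
  have hU : ∀ φ : S → ℂ, U.conjTranspose *ᵥ (U *ᵥ φ) = φ := fun φ => by
    rw [Matrix.mulVec_mulVec, h1, Matrix.one_mulVec]
  have hH : ∀ (z : ℂ) (φ : S → ℂ), H *ᵥ φ = z • φ →
      (U * H * U.conjTranspose) *ᵥ (U *ᵥ φ) = z • (U *ᵥ φ) := fun z φ hφ => by
    rw [← Matrix.mulVec_mulVec, hU, ← Matrix.mulVec_mulVec, hφ, Matrix.mulVec_smul]
  refine ⟨E, ?_, ?_, ?_⟩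
  · have : U.conjTranspose *ᵥ ((U * H * U.conjTranspose) *ᵥ Ψ) = (E : ℂ) • (U.conjTranspose *ᵥ Ψ) := by
      rw [e1, Matrix.mulVec_smul]
    rw [← this, Matrix.mulVec_mulVec, Matrix.mulVec_mulVec, ← mul_assoc, ← mul_assoc, h1, one_mul]
  · intro φ hφ
    obtain ⟨c, hc⟩ := e2 _ (hH _ φ hφ)
    exact ⟨c, by rw [← Matrix.mulVec_smul, ← hc, hU]⟩
  · intro E' φ h0 hφ
    refine e3 E' (U *ᵥ φ) (fun hcon => h0 ?_) (hH _ φ hφ)
    rw [← hU φ, hcon, Matrix.mulVec_zero]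

lemma gapped_affine {H : Matrix S S ℂ} {γ z Δ : ℝ} (hγ : 0 < γ) {Ψ : S → ℂ}
    (h : IsGappedGround H Δ Ψ) :
    IsGappedGround ((γ : ℂ) • H + (z : ℂ) • (1 : Matrix S S ℂ)) (γ * Δ) Ψ := by
  obtain ⟨E, e1, e2, e3⟩ := h
  have hγ' : (γ : ℂ) ≠ 0 := by exact_mod_cast hγ.ne'
  have key : ∀ (E' : ℝ) (φ : S → ℂ),
      ((γ : ℂ) • H + (z : ℂ) • (1 : Matrix S S ℂ)) *ᵥ φ = (E' : ℂ) • φ →
      H *ᵥ φ = (((E' - z) / γ : ℝ) : ℂ) • φ := by
    intro E' φ hφ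
    rw [Matrix.add_mulVec, Matrix.smul_mulVec, Matrix.smul_mulVec, Matrix.one_mulVec] at hφ
    have h1 : (γ : ℂ) • (H *ᵥ φ) = ((E' : ℂ) - z) • φ := by
      rw [sub_smul, ← hφ, add_sub_cancel_right]
    have h2 : H *ᵥ φ = (γ : ℂ)⁻¹ • ((γ : ℂ) • (H *ᵥ φ)) := by
      rw [smul_smul, inv_mul_cancel₀ hγ', one_smul]
    rw [h2, h1, smul_smul]
    congr 1
    push_cast
    field_simp
  refine ⟨γ * E + z, ?_, ?_, ?_⟩
  · rw [Matrix.add_mulVec, Matrix.smul_mulVec, Matrix.smul_mulVec, Matrix.one_mulVec, e1,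
      smul_smul, ← add_smul]
    push_cast
    rfl
  · intro φ hφ
    have h1 := key _ φ hφ
    have h2 : (γ * E + z - z) / γ = E := by field_simp; ring
    rw [h2] at h1
    exact e2 φ h1
  · intro E' φ h0 hφ
    rcases e3 _ φ h0 (key E' φ hφ) with h | h
    · left
      rw [div_eq_iff hγ.ne'] at h
      linarith
    · right
      rw [le_div_iff₀ hγ] at h
      linarith

end lin

/-- the constant -/
noncomputable def KK (d n : ℕ) : ℝ := ((Fintype.card (Fin n × Fin n → Fin d) : ℕ) : ℝ) ^ 2 + 1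

lemma KK_pos (d n : ℕ) : 0 < KK d n := by unfold KK; positivity

lemma entries_conj {S : Type} [Fintype S] [DecidableEq S] {U k : Matrix S S ℂ} {δ : ℝ}
    (hδ : 0 ≤ δ) (hU : ∀ s t, ‖U s t‖ ≤ 1) (hk : ∀ s t, ‖k s t‖ ≤ δ) (s t : S) :
    ‖(U * k * U.conjTranspose) s t‖ ≤ (((Fintype.card S : ℕ) : ℝ) ^ 2 + 1) * δ := by
  have h1 : ∀ s t, ‖(U * k) s t‖ ≤ (Fintype.card S : ℝ) * δ := by
    intro s t
    rw [Matrix.mul_apply]
    refine (norm_sum_le _ _).trans ?_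
    calc ∑ j, ‖U s j * k j t‖ ≤ ∑ _j : S, δ := by
          refine Finset.sum_le_sum fun j _ => ?_
          rw [norm_mul]
          calc ‖U s j‖ * ‖k j t‖ ≤ 1 * δ :=
                mul_le_mul (hU s j) (hk j t) (norm_nonneg _) zero_le_one
            _ = δ := one_mul δ
      _ = (Fintype.card S : ℝ) * δ := by
          rw [Finset.sum_const, Finset.card_univ, nsmul_eq_mul]
  rw [Matrix.mul_apply]
  refine (norm_sum_le _ _).trans ?_
  have hcard : (0 : ℝ) ≤ (Fintype.card S : ℝ) := Nat.cast_nonneg _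
  calc ∑ j, ‖(U * k) s j * U.conjTranspose j t‖ ≤ ∑ _j : S, (Fintype.card S : ℝ) * δ := by
        refine Finset.sum_le_sum fun j _ => ?_
        rw [norm_mul, Matrix.conjTranspose_apply, norm_star]
        calc ‖(U * k) s j‖ * ‖U t j‖ ≤ ((Fintype.card S : ℝ) * δ) * 1 :=
              mul_le_mul (h1 s j) (hU t j) (norm_nonneg _) (by positivity)
          _ = (Fintype.card S : ℝ) * δ := mul_one _
    _ = (Fintype.card S : ℝ) * ((Fintype.card S : ℝ) * δ) := by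
        rw [Finset.sum_const, Finset.card_univ, nsmul_eq_mul]
    _ ≤ (((Fintype.card S : ℕ) : ℝ) ^ 2 + 1) * δ := by nlinarith

/-- everything which is needed about the change of the basis -/
lemma change (hDi : DiaS) (hUn : UniS) (hSi : SitS) (d : ℕ) [NeZero d]
    (a : Matrix (Fin d) (Fin d) ℂ) (γ : ℝ) (f : Fin d → ℂ) (ha : a.IsHermitian) (hγ : 0 < γ)
    (hf : f ≠ 0) (hg : IsGappedGround a γ f) : ∃ (W : Matrix (Fin d) (Fin d) ℂ) (lam : ℝ)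
    (α : Fin d → ℂ) (e : Fin d → ℝ), W * W.conjTranspose = 1 ∧ W.conjTranspose * W = 1 ∧
    IsOne α e ∧ ∀ n : ℕ, 1 ≤ n → ∀ (h : BoxOp d n) (δ : ℝ), 0 ≤ δ → h.IsHermitian →
      (∀ p q, ‖h p q - site1 a n p q‖ ≤ δ) → ∃ h' : BoxOp d n, h'.IsHermitian ∧
        (∀ p q, ‖h' p q - site α n p q‖ ≤ γ⁻¹ * (KK d n * δ)) ∧
        ∀ (L : ℕ) [NeZero L], n ≤ L → tpw W * ham h L * (tpw W).conjTranspose =
          (γ : ℂ) • ham h' L + ((lam * (L : ℝ) ^ 2 : ℝ) : ℂ) • 1 := by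
  obtain ⟨W, lam, α, e, hW1, hW2, h1, hWa⟩ := hDi d a γ f ha hγ hf hg
  refine ⟨W, lam, α, e, hW1, hW2, h1, ?_⟩
  intro n hn h δ hδ hh hclose
  obtain ⟨u1, u2, -, u4⟩ := hUn d W hW1 hW2
  obtain ⟨s1, s2, s3, s4⟩ := hSi d n hn
  obtain ⟨v1, v2, -, v4, v5⟩ := u2 (Fin n × Fin n)
  have hγ' : (γ : ℂ) ≠ 0 := by exact_mod_cast hγ.ne'
  set U : BoxOp d n := tpw W with hU
  have hUs : U.conjTranspose = tpw W.conjTranspose := v4
  set h' : BoxOp d n := (γ : ℂ)⁻¹ • (U * h * U.conjTranspose - (lam : ℂ) • 1) with hh'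
  have e1 : U * h * U.conjTranspose = (γ : ℂ) • h' + (lam : ℂ) • 1 := by
    rw [hh', smul_smul, mul_inv_cancel₀ hγ', one_smul, sub_add_cancel]
  have e2 : U * site1 a n * U.conjTranspose = (γ : ℂ) • site α n + (lam : ℂ) • 1 := by
    rw [hUs, u4 n a hn]
    obtain ⟨A, hA⟩ : ∃ A : Matrix (Fin d) (Fin d) ℂ, A = fun s t => α (t - s) := ⟨_, rfl⟩
    have hA' : ∀ s t, A s t = α (t - s) := fun s t => by rw [hA]
    have e3 : W * a * W.conjTranspose = (γ : ℂ) • A + (lam : ℂ) • (1 : Matrix (Fin d) (Fin d) ℂ) := by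
      ext s t
      rw [hWa, Matrix.add_apply, Matrix.smul_apply, Matrix.smul_apply, Matrix.one_apply,
        smul_eq_mul, smul_eq_mul, hA']
      congr 1
      split_ifs <;> simp
    rw [e3, s1, s2, hA, s3]
  have e4 : h' - site α n = (γ : ℂ)⁻¹ • (U * (h - site1 a n) * U.conjTranspose) := by
    rw [mul_sub, sub_mul, e1, e2, add_sub_add_right_eq_sub, ← smul_sub, smul_smul,
      inv_mul_cancel₀ hγ', one_smul]
  refine ⟨h', ?_, ?_, ?_⟩
  · have h2 : (U * h * U.conjTranspose).IsHermitian :=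
      Matrix.isHermitian_mul_mul_conjTranspose U hh
    have h3 : ((lam : ℂ) • (1 : BoxOp d n)).IsHermitian := by
      unfold Matrix.IsHermitian
      rw [Matrix.conjTranspose_smul, Matrix.conjTranspose_one, RCLike.star_def, Complex.conj_ofReal]
    have h4 := h2.sub h3
    unfold Matrix.IsHermitian at h4 ⊢
    rw [hh', Matrix.conjTranspose_smul, h4, star_inv₀, RCLike.star_def, Complex.conj_ofReal]
  · intro p q
    have h2 : h' p q - site α n p q = (h' - site α n) p q := rfl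
    rw [h2, e4, Matrix.smul_apply, smul_eq_mul, norm_mul, norm_inv, Complex.norm_real,
      Real.norm_eq_abs, abs_of_pos hγ]
    exact mul_le_mul_of_nonneg_left (entries_conj hδ v5 hclose p q) (inv_pos.2 hγ).le
  · intro L _ hnL
    obtain ⟨-, -, -, w4, -⟩ := u2 (Site L)
    rw [w4, u1 n L h hnL]
    have e5 : (tpw W * h * tpw W.conjTranspose : BoxOp d n) = (γ : ℂ) • h' + (lam : ℂ) • 1 := by
      rw [← e1, hUs]
    rw [e5, s4 L hnL h' γ lam]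
    push_cast
    rfl

/-- the change of the basis for the second perturbation -/
lemma change2 (hUn : UniS) {d : ℕ} [NeZero d] {W : Matrix (Fin d) (Fin d) ℂ}
    (hW1 : W * W.conjTranspose = 1) (hW2 : W.conjTranspose * W = 1) {γ : ℝ} (hγ : 0 < γ) {N : ℕ}
    (O : BoxOp d N) {δ : ℝ} (hδ : 0 ≤ δ) (hO : O.IsHermitian) (hc : ∀ p q, ‖O p q‖ ≤ δ) :
    ∃ O' : BoxOp d N, O'.IsHermitian ∧ (∀ p q, ‖O' p q‖ ≤ γ⁻¹ * (KK d N * δ)) ∧
      ∀ (L : ℕ) [NeZero L], N ≤ L →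
        tpw W * ham O L * (tpw W).conjTranspose = (γ : ℂ) • ham O' L := by
  obtain ⟨u1, u2, -, -⟩ := hUn d W hW1 hW2
  obtain ⟨-, -, -, v4, v5⟩ := u2 (Fin N × Fin N)
  have hγ' : (γ : ℂ) ≠ 0 := by exact_mod_cast hγ.ne'
  set U : BoxOp d N := tpw W with hU
  have hUs : U.conjTranspose = tpw W.conjTranspose := v4
  refine ⟨(γ : ℂ)⁻¹ • (U * O * U.conjTranspose), ?_, ?_, ?_⟩
  · have h2 : (U * O * U.conjTranspose).IsHermitian :=
      Matrix.isHermitian_mul_mul_conjTranspose U hO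
    unfold Matrix.IsHermitian at h2 ⊢
    rw [Matrix.conjTranspose_smul, h2, star_inv₀, RCLike.star_def, Complex.conj_ofReal]
  · intro p q
    rw [Matrix.smul_apply, smul_eq_mul, norm_mul, norm_inv, Complex.norm_real,
      Real.norm_eq_abs, abs_of_pos hγ]
    exact mul_le_mul_of_nonneg_left (entries_conj hδ v5 hc p q) (inv_pos.2 hγ).le
  · intro L _ hNL
    obtain ⟨-, -, -, w4, -⟩ := u2 (Site L)
    rw [w4, u1 N L O hNL]
    have h1 : ham ((γ : ℂ)⁻¹ • (U * O * U.conjTranspose)) L =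
        (γ : ℂ)⁻¹ • ham (U * O * U.conjTranspose) L := by
      unfold ham
      rw [Finset.smul_sum]
      refine Finset.sum_congr rfl fun u _ => ?_
      ext s t
      rw [Matrix.smul_apply]
      unfold term
      split_ifs
      · rfl
      · simp
    rw [h1, smul_smul, mul_inv_cancel₀ hγ', one_smul, hUs]

/-- The PEPS theorem. -/
def FinA : Prop := ∀ (d : ℕ) [NeZero d] (a : Matrix (Fin d) (Fin d) ℂ) (γ : ℝ) (f : Fin d → ℂ),
  a.IsHermitian → 0 < γ → f ≠ 0 → IsGappedGround a γ f → ∀ (n : ℕ) (κ : ℝ), 1 ≤ n → 0 < κ →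
  ∃ δ C : ℝ, 0 < δ ∧ 0 < C ∧ ∀ h : BoxOp d n, h.IsHermitian →
    (∀ p q, ‖h p q - site1 a n p q‖ ≤ δ) → ∀ (L : ℕ) [NeZero L], n ≤ L →
    ∃ Ψ : (Site L → Fin d) → ℂ, normSq Ψ = 1 ∧ IsGappedGround (ham h L) (γ / 2) Ψ ∧
      ∀ ε : ℝ, 0 < ε → ε ≤ 1 → ∃ (D : ℕ) (φ : (Site L → Fin d) → ℂ),
        (D : ℝ) ≤ C * ((L : ℝ) / ε) ^ κ ∧ IsPEPS D φ ∧ normSq (φ - Ψ) ≤ ε ^ 2

/-- The gap for two perturbations. -/
def TwoA : Prop := ∀ (d : ℕ) [NeZero d] (a : Matrix (Fin d) (Fin d) ℂ) (γ : ℝ) (f : Fin d → ℂ),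
  a.IsHermitian → 0 < γ → f ≠ 0 → IsGappedGround a γ f → ∀ n : ℕ, 1 ≤ n → ∃ δ₁ : ℝ, 0 < δ₁ ∧
  ∀ N : ℕ, 1 ≤ N → ∃ δ₂ : ℝ, 0 < δ₂ ∧ ∀ h : BoxOp d n, h.IsHermitian →
    (∀ p q, ‖h p q - site1 a n p q‖ ≤ δ₁) → ∀ O : BoxOp d N, O.IsHermitian →
    (∀ p q, ‖O p q‖ ≤ δ₂) → ∀ (L : ℕ) [NeZero L], n ≤ L → N ≤ L →
    ∃ Ψ : (Site L → Fin d) → ℂ, normSq Ψ = 1 ∧ IsGappedGround (ham h L + ham O L) (γ / 2) Ψ

theorem finA (hDi : DiaS) (hUn : UniS) (hSi : SitS) (hF : FinC) : FinA := by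
  intro d _ a γ f ha hγ hf hg n κ hn hκ
  obtain ⟨W, lam, α, e, hW1, hW2, h1, hch⟩ := change hDi hUn hSi d a γ f ha hγ hf hg
  obtain ⟨δ, C, hδ, hC, hmain⟩ := hF d α e h1 n κ hn hκ
  have hK := KK_pos d n
  refine ⟨γ * δ / KK d n, C, by positivity, hC, ?_⟩
  intro h hh hclose L _ hnL
  obtain ⟨h', k1, k2, k3⟩ := hch n hn h (γ * δ / KK d n) (by positivity) hh hclose
  have e1 : γ⁻¹ * (KK d n * (γ * δ / KK d n)) = δ := by field_simp
  rw [e1] at k2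
  obtain ⟨Ψ, m1, m2, m3⟩ := hmain h' k1 k2 L hnL
  obtain ⟨u1, u2, -, -⟩ := hUn d W hW1 hW2
  obtain ⟨v1, v2, -, v4, -⟩ := u2 (Site L)
  have hW1' : W.conjTranspose * W.conjTranspose.conjTranspose = 1 := by
    rw [Matrix.conjTranspose_conjTranspose]; exact hW2
  have hW2' : W.conjTranspose.conjTranspose * W.conjTranspose = 1 := by
    rw [Matrix.conjTranspose_conjTranspose]; exact hW1
  obtain ⟨-, x2, x3, -⟩ := hUn d W.conjTranspose hW1' hW2'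
  obtain ⟨-, -, y3, -, -⟩ := x2 (Site L)
  set U : Matrix (Site L → Fin d) (Site L → Fin d) ℂ := tpw W with hU
  have q1 : U.conjTranspose * U = 1 := by rw [v4]; exact v1
  have hgap : IsGappedGround (U * ham h L * U.conjTranspose) (γ * (1 / 2)) Ψ := by
    rw [k3 L hnL]
    exact gapped_affine hγ m2
  have hgap2 := gapped_conj q1 hgap
  have e2 : γ * (1 / 2) = γ / 2 := by ring
  rw [e2, v4] at hgap2
  refine ⟨tpw W.conjTranspose *ᵥ Ψ, by rw [y3, m1], hgap2, ?_⟩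
  intro ε hε hε1
  obtain ⟨D, φ, z1, z2, z3⟩ := m3 ε hε hε1
  refine ⟨D, tpw W.conjTranspose *ᵥ φ, z1, x3 L D φ z2, ?_⟩
  rw [← Matrix.mulVec_sub, y3]
  exact z3

theorem twoA (hDi : DiaS) (hUn : UniS) (hSi : SitS) (hF : TwoC) : TwoA := by
  intro d _ a γ f ha hγ hf hg n hn
  obtain ⟨W, lam, α, e, hW1, hW2, h1, hch⟩ := change hDi hUn hSi d a γ f ha hγ hf hg
  obtain ⟨δ, hδ, hmain⟩ := hF d α e h1 n hn
  have hK := KK_pos d n
  refine ⟨γ * δ / KK d n, by positivity, fun N hN => ?_⟩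
  obtain ⟨δ₂, hδ₂, hmain2⟩ := hmain N hN
  have hK2 := KK_pos d N
  refine ⟨γ * δ₂ / KK d N, by positivity, ?_⟩
  intro h hh hclose O hO hOc L _ hnL hNL
  obtain ⟨h', k1, k2, k3⟩ := hch n hn h (γ * δ / KK d n) (by positivity) hh hclose
  have e1 : γ⁻¹ * (KK d n * (γ * δ / KK d n)) = δ := by field_simp
  rw [e1] at k2
  obtain ⟨O', l1, l2, l3⟩ := change2 hUn hW1 hW2 hγ O (by positivity) hO hOc
  have e1' : γ⁻¹ * (KK d N * (γ * δ₂ / KK d N)) = δ₂ := by field_simp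
  rw [e1'] at l2
  obtain ⟨Ψ, m1, m2⟩ := hmain2 h' k1 k2 O' l1 l2 L hnL hNL
  obtain ⟨u1, u2, -, -⟩ := hUn d W hW1 hW2
  obtain ⟨v1, v2, -, v4, -⟩ := u2 (Site L)
  have hW1' : W.conjTranspose * W.conjTranspose.conjTranspose = 1 := by
    rw [Matrix.conjTranspose_conjTranspose]; exact hW2
  have hW2' : W.conjTranspose.conjTranspose * W.conjTranspose = 1 := by
    rw [Matrix.conjTranspose_conjTranspose]; exact hW1
  obtain ⟨-, x2, -, -⟩ := hUn d W.conjTranspose hW1' hW2'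
  obtain ⟨-, -, y3, -, -⟩ := x2 (Site L)
  set U : Matrix (Site L → Fin d) (Site L → Fin d) ℂ := tpw W with hU
  have q1 : U.conjTranspose * U = 1 := by rw [v4]; exact v1
  have hgap : IsGappedGround (U * (ham h L + ham O L) * U.conjTranspose) (γ * (1 / 2)) Ψ := by
    rw [mul_add, add_mul, k3 L hnL, l3 L hNL, add_right_comm, ← smul_add]
    exact gapped_affine hγ m2
  have hgap2 := gapped_conj q1 hgap
  have e2 : γ * (1 / 2) = γ / 2 := by ring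
  rw [e2, v4] at hgap2
  exact ⟨tpw W.conjTranspose *ᵥ Ψ, by rw [y3, m1], hgap2⟩

end Pool.Agent.Q234.KG.Gen
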