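import Pool.Agent.Q234.KG.Gen
import Pool.Agent.Q234.KG.Stm2

/-!
# Project KG: the local theorem
-/

set_option autoImplicit false

open scoped BigOperators Matrix ComplexConjugate
open Finset
open Pool.Agent.Q234.KT (bR pt)
open Pool.Agent.Q234.KG.Gen (FinA TwoA)

namespace Pool.Agent.Q234.KG.Loc

open Pool.Agent.TH235.PP (BoxOp Site IsPEPS)

lemma ham_smul {d n L : ℕ} [NeZero L] (c : ℂ) (h : BoxOp d n) :
    Pool.Agent.TH235.PP.ham (c • h) L = c • Pool.Agent.TH235.PP.ham h L := by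
  unfold Pool.Agent.TH235.PP.ham
  rw [Finset.smul_sum]
  refine Finset.sum_congr rfl fun u _ => ?_
  ext s t
  rw [Matrix.smul_apply]
  unfold Pool.Agent.TH235.PP.term
  split_ifs
  · rfl
  · simp

lemma bR_sub {n N : ℕ} (h : n ≤ N) : bR n ⊆ bR N := by
  intro x hx
  unfold bR at hx ⊢
  rw [Finset.mem_image] at hx ⊢
  obtain ⟨p, hp, rfl⟩ := hx
  rw [Finset.mem_product, Finset.mem_range, Finset.mem_range] at hp
  exact ⟨p, Finset.mem_product.2 ⟨Finset.mem_range.2 (by omega), Finset.mem_range.2 (by omega)⟩, rfl⟩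

/-- The family of ground states of an interaction, for the sizes `L ≥ L₀`: everything which is used. -/
structure Fam (d n : ℕ) (h : BoxOp d n) (γ : ℝ) (L₀ : ℕ) (Ψ : ∀ L : ℕ, (Site L → Fin d) → ℂ) :
    Prop where
  gs : ∀ (L : ℕ) [NeZero L], L₀ ≤ L → Pool.Agent.TH235.PP.normSq (Ψ L) = 1 ∧
    Pool.Agent.TH235.PP.IsGappedGround (Pool.Agent.TH235.PP.ham h L) γ (Ψ L)
  two : ∀ N : ℕ, 1 ≤ N → ∃ δ₂ : ℝ, 0 < δ₂ ∧ ∃ L₂ : ℕ, ∀ O : BoxOp d N, O.IsHermitian →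
    (∀ p q, ‖O p q‖ ≤ δ₂) → ∀ (L : ℕ) [NeZero L], L₂ ≤ L →
    ∃ φ : (Site L → Fin d) → ℂ, Pool.Agent.TH235.PP.normSq φ = 1 ∧
      Pool.Agent.TH235.PP.IsGappedGround
        (Pool.Agent.TH235.PP.ham h L + Pool.Agent.TH235.PP.ham O L) γ φ
  peps : ∃ C : ℝ, 0 < C ∧ ∀ (L : ℕ) [NeZero L], L₀ ≤ L → ∀ ε : ℝ, 0 < ε → ε ≤ 1 →
    ∃ (D : ℕ) (φ : (Site L → Fin d) → ℂ), (D : ℝ) ≤ C * ((L : ℝ) / ε) ∧ IsPEPS D φ ∧
      Pool.Agent.TH235.PP.normSq (φ - Ψ L) ≤ ε ^ 2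

section

open Pool.Agent.H4R2 (redState rad)
open Pool.Agent.Y665.PE (TransInv enl pair size)

variable {d n L₀ : ℕ} {h : BoxOp d n} {γ : ℝ} {Ψ : ∀ L : ℕ, (Site L → Fin d) → ℂ}

/-- ground states are translation invariant -/
lemma fam_ti (hBox : BoxS) (hf : Fam d n h γ L₀ Ψ) (L : ℕ) [NeZero L] (hL : L₀ ≤ L) :
    TransInv (Ψ L) := by
  have h1 := (hf.gs L hL).2
  rw [(hBox d).1 n h L] at h1
  exact Pool.Agent.Y665.PE.transInv_of_ground (bR n) (toR h) γ (Ψ L) h1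

/-- the reduced states on large boxes converge at a polynomial rate -/
lemma rate_box (hBox : BoxS) (hRate : RateS) (hd : 2 ≤ d) (hh : h.IsHermitian) (hγ : 0 < γ)
    (hf : Fam d n h γ L₀ Ψ) (N : ℕ) (hN : 1 ≤ N) (hnN : n ≤ N) : ∃ C : ℝ, 0 < C ∧ ∀ ε : ℝ, 0 < ε →
    ε ≤ 1 → ∀ (L L' : ℕ) [NeZero L] [NeZero L'], C / ε ^ 4 ≤ L → C / ε ^ 4 ≤ L' →
    ∀ a b, ‖redState (bR N) (Ψ L) a b - redState (bR N) (Ψ L') a b‖ ≤ ε := by
  obtain ⟨b1, b2, b3⟩ := hBox d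
  obtain ⟨δ₂, hδ₂, L₂, h2⟩ := hf.two N hN
  have hk : (enl (bR_sub hnN) (toR h)).IsHermitian :=
    Pool.Agent.Y665.PE.enl_herm (bR_sub hnN) (b3 n h hh)
  have hham : ∀ (L : ℕ) [NeZero L], max (2 * rad (bR N) + 1) N ≤ L →
      Pool.Agent.H4R2.ham (bR N) (enl (bR_sub hnN) (toR h)) L = Pool.Agent.TH235.PP.ham h L := by
    intro L _ hL
    rw [Pool.Agent.Y665.PE.ham_enl (bR_sub hnN) (toR h) ((le_max_left _ _).trans hL), ← b1]
  refine hRate d (bR N) (enl (bR_sub hnN) (toR h)) γ (δ₂ / 2)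
    (max (max (2 * rad (bR N) + 1) N) (max L₀ L₂))
    (fun L _ => Ψ L) hd hk hγ (by positivity) ?_ ?_
  · intro L _ hL
    have hL1 : max (2 * rad (bR N) + 1) N ≤ L := (le_max_left _ _).trans hL
    have hL2 : max L₀ L₂ ≤ L := (le_max_right _ _).trans hL
    obtain ⟨c1, c2⟩ := hf.gs L ((le_max_left _ _).trans hL2)
    refine ⟨c1, ?_⟩
    rw [hham L hL1]
    exact c2
  · intro L _ hL O hO hOb t ht0 ht
    have hL1 : max (2 * rad (bR N) + 1) N ≤ L := (le_max_left _ _).trans hL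
    have hL2 : max L₀ L₂ ≤ L := (le_max_right _ _).trans hL
    obtain ⟨O', o1, o2, o3⟩ := b2 N O
    have e1 : ((t : ℂ) • O').IsHermitian := by
      have := o2 hO
      unfold Matrix.IsHermitian at this ⊢
      rw [Matrix.conjTranspose_smul, this, RCLike.star_def, Complex.conj_ofReal]
    obtain ⟨φ, f1, f2⟩ := h2 ((t : ℂ) • O') e1 (by
      intro p q
      obtain ⟨a, b, hab⟩ := o3 p q
      rw [Matrix.smul_apply, smul_eq_mul, norm_mul, Complex.norm_real, Real.norm_eq_abs,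
        abs_of_pos ht0, hab]
      have := hOb a b
      nlinarith [norm_nonneg (O a b)]) L ((le_max_right _ _).trans hL2)
    refine ⟨φ, f1, ?_⟩
    rw [ham_smul, b1 N O' L, o1] at f2
    rw [hham L hL1]
    exact f2

/-- the reduced states on small boxes -/
lemma rate_small (hBox : BoxS) (hRate : RateS) (hd : 2 ≤ d) (hh : h.IsHermitian) (hγ : 0 < γ)
    (hf : Fam d n h γ L₀ Ψ) (r : ℕ) (hr : 0 < r) : ∃ C : ℝ, 0 < C ∧ ∀ ε : ℝ, 0 < ε → ε ≤ 1 →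
    ∀ (L L' : ℕ) [NeZero L] [NeZero L'], C / ε ^ 4 ≤ L → C / ε ^ 4 ≤ L' →
    L₀ ≤ L ∧ r ≤ L ∧ L₀ ≤ L' ∧ r ≤ L' ∧
      ∀ a b, ‖redState (bR r) (Ψ L) a b - redState (bR r) (Ψ L') a b‖ ≤ ε := by
  classical
  obtain ⟨C, hC, h1⟩ := rate_box hBox hRate hd hh hγ hf (max r n) (by omega) (le_max_right _ _)
  have hsub : bR r ⊆ bR (max r n) := bR_sub (le_max_left _ _)
  obtain ⟨S, hS⟩ : ∃ S : ℝ, S = ∑ a : bR r → Fin d, ∑ b : bR r → Fin d,
    size (enl hsub (Matrix.single a b (1 : ℂ))) := ⟨_, rfl⟩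
  have hS0 : 0 ≤ S := by
    rw [hS]
    exact Finset.sum_nonneg fun _ _ => Finset.sum_nonneg fun _ _ =>
      Pool.Agent.Y665.PE.size_nonneg _
  obtain ⟨L₁, hL₁⟩ : ∃ L₁ : ℕ, L₁ = max (2 * rad (bR (max r n)) + 1) (max r L₀) := ⟨_, rfl⟩
  refine ⟨C * (S + 1) ^ 4 + L₁, by positivity, ?_⟩
  intro ε hε hε1 L L' _ _ hL hL'
  have key : ∀ (L : ℕ) [NeZero L], (C * (S + 1) ^ 4 + L₁) / ε ^ 4 ≤ L →
      C / (ε / (S + 1)) ^ 4 ≤ L ∧ L₁ ≤ L := by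
    intro L _ hL
    have hε4 : 0 < ε ^ 4 := by positivity
    have hε41 : ε ^ 4 ≤ 1 := pow_le_one₀ hε.le hε1
    have e1 : C / (ε / (S + 1)) ^ 4 = C * (S + 1) ^ 4 / ε ^ 4 := by
      rw [div_pow]
      field_simp
    rw [add_div] at hL
    have e2 : (L₁ : ℝ) ≤ L₁ / ε ^ 4 := by
      rw [le_div_iff₀ hε4]
      have : (0 : ℝ) ≤ L₁ := Nat.cast_nonneg _
      nlinarith
    have e3 : 0 ≤ (L₁ : ℝ) / ε ^ 4 := by positivity
    have e4 : 0 ≤ C * (S + 1) ^ 4 / ε ^ 4 := by positivity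
    constructor
    · rw [e1]; linarith
    · have : (L₁ : ℝ) ≤ L := by linarith
      exact_mod_cast this
  obtain ⟨k1, k2⟩ := key L hL
  obtain ⟨k1', k2'⟩ := key L' hL'
  rw [hL₁] at k2 k2'
  have m1 : max r L₀ ≤ L := (le_max_right _ _).trans k2
  have m1' : max r L₀ ≤ L' := (le_max_right _ _).trans k2'
  refine ⟨(le_max_right _ _).trans m1, (le_max_left _ _).trans m1, (le_max_right _ _).trans m1',
    (le_max_left _ _).trans m1', ?_⟩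
  intro a b
  have hε' : ε / (S + 1) ≤ 1 := by
    rw [div_le_one (by linarith)]
    linarith
  have h2 := h1 (ε / (S + 1)) (by positivity) hε' L L' k1 k1'
  have e : ∀ (L : ℕ) [NeZero L], max (2 * rad (bR (max r n)) + 1) (max r L₀) ≤ L →
      redState (bR r) (Ψ L) a b =
      pair (enl hsub (Matrix.single b a (1 : ℂ))) (redState (bR (max r n)) (Ψ L)) := by
    intro L _ hL
    have hnL : L₀ ≤ L := (le_max_right _ _).trans ((le_max_right _ _).trans hL)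
    rw [Pool.Agent.Y665.PE.pair_enl hsub _ ((le_max_left _ _).trans hL) (Ψ L) (hf.gs L hnL).1
      (fam_ti hBox hf L hnL), Pool.Agent.Y665.PE.pair_single, one_mul]
  rw [e L k2, e L' k2']
  refine (Pool.Agent.Y665.PE.pair_norm_le _ _ _ _ h2).trans ?_
  have h3 : size (enl hsub (Matrix.single b a (1 : ℂ))) ≤ S := by
    rw [hS]
    refine le_trans ?_ (Finset.single_le_sum (f := fun a : bR r → Fin d => ∑ b : bR r → Fin d,
      size (enl hsub (Matrix.single a b (1 : ℂ))))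
      (fun _ _ => Finset.sum_nonneg fun _ _ => Pool.Agent.Y665.PE.size_nonneg _) (Finset.mem_univ b))
    exact Finset.single_le_sum (f := fun b' : bR r → Fin d =>
      size (enl hsub (Matrix.single b b' (1 : ℂ))))
      (fun _ _ => Pool.Agent.Y665.PE.size_nonneg _) (Finset.mem_univ a)
  rw [mul_div_assoc', div_le_iff₀ (by linarith)]
  nlinarith

/-- polynomial convergence -/
lemma poly_conv (hBox : BoxS) (hRate : RateS) (hRed : RedS) (hd : 2 ≤ d) (hh : h.IsHermitian)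
    (hγ : 0 < γ) (hf : Fam d n h γ L₀ Ψ) (R : Finset (ℤ × ℤ)) :
    Pool.Agent.Y738.PE.PolyConv R Ψ := by
  obtain ⟨r, av, hr, hB⟩ := Pool.Agent.Y70.PE.region d R
  obtain ⟨C, hC, h1⟩ := rate_small hBox hRate hd hh hγ hf r hr
  obtain ⟨C₃, hC₃, h3⟩ := hRed d r hd hr
  refine ⟨⌈C * (C₃ + 1) ^ 4⌉₊, 4, ?_⟩
  intro ε hε hε1 L L' _ _ hL hL'
  have key : ∀ (L : ℕ), ((⌈C * (C₃ + 1) ^ 4⌉₊ : ℕ) : ℝ) * (1 / ε) ^ 4 ≤ L →
      C / (ε / (C₃ + 1)) ^ 4 ≤ L := by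
    intro L hL
    refine le_trans ?_ hL
    have e1 : C / (ε / (C₃ + 1)) ^ 4 = C * (C₃ + 1) ^ 4 * (1 / ε) ^ 4 := by
      rw [div_pow, one_div_pow]
      field_simp
    rw [e1]
    exact mul_le_mul_of_nonneg_right (Nat.le_ceil _) (by positivity)
  obtain ⟨m1, m2, m1', m2', h4⟩ := h1 (ε / (C₃ + 1)) (by positivity) (by
    rw [div_le_one (by linarith)]; linarith) L L' (key L hL) (key L' hL')
  obtain ⟨g1, -⟩ := hf.gs L m1
  obtain ⟨g1', -⟩ := hf.gs L' m1'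
  have h5 := h3 L L' m2 m2' (Ψ L) (Ψ L') (ε / (C₃ + 1)) g1 g1' (fam_ti hBox hf L m1)
    (fam_ti hBox hf L' m1') h4
  intro u v B hBc
  obtain ⟨B', hB', hBB⟩ := hB B hBc
  have n1 : Pool.Agent.Y738.PE.nrm (Ψ L) = 1 := g1
  have n1' : Pool.Agent.Y738.PE.nrm (Ψ L') = 1 := g1'
  rw [n1, n1', hBB L m2, hBB L' m2', Complex.ofReal_one, div_one, div_one]
  refine (h5 _ _ B' hB').trans ?_
  rw [mul_div_assoc', div_le_iff₀ (by linarith)]
  nlinarith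

/-- efficient approximation for single sizes -/
lemma eff_any (hBox : BoxS) (hNear : NearS) (hd : 2 ≤ d) (hf : Fam d n h γ L₀ Ψ)
    (R : Finset (ℤ × ℤ)) (r : ℕ) : Pool.Agent.Y738.PE.EffAny R r Ψ := by
  obtain ⟨C, hC, hp⟩ := hf.peps
  obtain ⟨r₀, hr₀⟩ := hNear d R hd
  set c₁ : ℝ := (r : ℝ) + 2 + L₀ + r₀ with hc₁
  have hc₁0 : 0 < c₁ := by positivity
  refine ⟨⌈c₁ + 8 * C * c₁⌉₊, 2, ?_⟩
  intro ε hε hε1
  set m : ℕ := ⌈(r : ℝ) / ε⌉₊ + 1 + L₀ + r₀ with hm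
  have hi : NeZero m := ⟨by omega⟩
  obtain ⟨D, φ, p1, p2, p3⟩ := hp m (by omega) (ε / 8) (by positivity) (by linarith)
  obtain ⟨A, hA⟩ := p2
  have hx : 1 ≤ 1 / ε := by rw [le_div_iff₀ hε]; linarith
  have hmle : (m : ℝ) ≤ c₁ * (1 / ε) := by
    have e1 := (Nat.ceil_lt_add_one (a := (r : ℝ) / ε) (by positivity)).le
    rw [hm]
    push_cast
    have e2 : (r : ℝ) / ε = r * (1 / ε) := by ring
    rw [e2] at e1
    have hn0 : (0 : ℝ) ≤ L₀ := Nat.cast_nonneg _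
    have hr0 : (0 : ℝ) ≤ r₀ := Nat.cast_nonneg _
    rw [hc₁]
    rw [e2]
    nlinarith
  have hx2 : 1 / ε ≤ (1 / ε) ^ 2 := by nlinarith
  have hceil := Nat.le_ceil (c₁ + 8 * C * c₁)
  have hgs := hf.gs m (by omega)
  have hnear := hr₀ m (by omega) (Ψ m) φ ε hε hε1 hgs.1 (fam_ti hBox hf m (by omega)) (by
    have : Pool.Agent.Y738.PE.nrm (fun s => φ s - Ψ m s) =
      Pool.Agent.TH235.PP.normSq (φ - Ψ m) := rfl
    rw [this]
    exact p3)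
  have hpe : Pool.Agent.Y738.PE.pepsN A = φ := by rw [hA]; rfl
  refine ⟨m, hi, D, A, ?_, ?_, ?_, ?_, ?_⟩
  · have := Nat.le_ceil ((r : ℝ) / ε)
    rw [hm]
    push_cast
    have hn0 : (0 : ℝ) ≤ L₀ := Nat.cast_nonneg _
    have hr0 : (0 : ℝ) ≤ r₀ := Nat.cast_nonneg _
    linarith
  · refine hmle.trans ?_
    have h8 : c₁ * (1 / ε) ≤ c₁ * (1 / ε) ^ 2 := mul_le_mul_of_nonneg_left hx2 hc₁0.le
    refine h8.trans ?_
    apply mul_le_mul_of_nonneg_right _ (by positivity)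
    have : 0 ≤ 8 * C * c₁ := by positivity
    linarith
  · refine p1.trans ?_
    have e1 : C * ((m : ℝ) / (ε / 8)) = 8 * C * (1 / ε) * m := by field_simp
    rw [e1]
    have e2 : 8 * C * (1 / ε) * m ≤ 8 * C * (1 / ε) * (c₁ * (1 / ε)) :=
      mul_le_mul_of_nonneg_left hmle (by positivity)
    refine e2.trans ?_
    have e3 : 8 * C * (1 / ε) * (c₁ * (1 / ε)) = 8 * C * c₁ * (1 / ε) ^ 2 := by ring
    rw [e3]
    apply mul_le_mul_of_nonneg_right _ (by positivity)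
    linarith
  · rw [hpe]; exact hnear.1
  · rw [hpe]; exact hnear.2

end

open Pool.Agent.H4R2 (Tensor traceNorm redState)

/-- The conclusion of the open problem, with a polynomial bound. -/
def Local {d : ℕ} (Ψ : ∀ L : ℕ, (Site L → Fin d) → ℂ) : Prop :=
  ∀ R : Finset (ℤ × ℤ), ∃ c k : ℕ, ∀ ε : ℝ, 0 < ε → ε ≤ 1 → ∃ (D : ℕ) (A : Tensor d D),
    (D : ℝ) ≤ c * (1 / ε) ^ k ∧ ∀ (L : ℕ) [NeZero L], (c : ℝ) * (1 / ε) ^ k ≤ L →
      Pool.Agent.H4R2.contract A L ≠ 0 ∧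
      traceNorm (redState R (Ψ L) - redState R (Pool.Agent.H4R2.contract A L)) ≤ ε

lemma local_of (hTr : TrS) {d : ℕ} (hd : 2 ≤ d) {Ψ : ∀ L : ℕ, (Site L → Fin d) → ℂ}
    (h : ∀ R, Pool.Agent.Y738.PE.EffAll R Ψ) : Local Ψ := by
  intro R
  obtain ⟨c, k, h1⟩ := h R
  set M : ℕ := (d ^ R.card) ^ 2 with hM
  have hM1 : 1 ≤ M := Nat.one_le_iff_ne_zero.2 (by rw [hM]; positivity)
  have hM1' : (1 : ℝ) ≤ M := by exact_mod_cast hM1
  refine ⟨c * M ^ k, k, ?_⟩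
  intro ε hε hε1
  have hM0 : (0 : ℝ) < M := by linarith
  obtain ⟨D, A, hD, hA⟩ := h1 (ε / M) (by positivity) (by
    rw [div_le_one hM0]; linarith)
  have e1 : (c : ℝ) * (1 / (ε / M)) ^ k = ((c * M ^ k : ℕ) : ℝ) * (1 / ε) ^ k := by
    push_cast
    rw [one_div_div, div_pow, one_div_pow]
    ring
  rw [e1] at hD hA
  refine ⟨D, fun s l r up dn => A s l r dn up, hD, ?_⟩
  intro L _ hL
  obtain ⟨a1, a2⟩ := hA L hL
  have hcon : Pool.Agent.H4R2.contract (fun s l r up dn => A s l r dn up) L =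
      Pool.Agent.Y738.PE.pepsX A L := rfl
  constructor
  · rw [hcon]
    intro h0
    apply a1
    rw [h0]
    unfold Pool.Agent.Y738.PE.nrm
    simp
  · rw [hcon]
    refine (hTr d R L (Ψ L) (Pool.Agent.Y738.PE.pepsX A L) (ε / M) hd a2).trans ?_
    have : ((d : ℝ) ^ R.card) ^ 2 = (M : ℝ) := by rw [hM]; push_cast; ring
    rw [this, mul_div_assoc', mul_div_cancel_left₀ _ hM0.ne']

/-- The local theorem. -/
def LocA : Prop := ∀ (d : ℕ) (a : Matrix (Fin d) (Fin d) ℂ) (γ : ℝ) (f : Fin d → ℂ), 2 ≤ d →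
  a.IsHermitian → 0 < γ → f ≠ 0 → Pool.Agent.TH235.PP.IsGappedGround a γ f → ∀ n : ℕ, 1 ≤ n →
  ∃ δ : ℝ, 0 < δ ∧ ∀ h : BoxOp d n, h.IsHermitian → (∀ p q, ‖h p q - site1 a n p q‖ ≤ δ) →
    ∃ Ψ : ∀ L : ℕ, (Site L → Fin d) → ℂ,
      (∀ (L : ℕ) [NeZero L], n ≤ L → Pool.Agent.TH235.PP.normSq (Ψ L) = 1 ∧
        Pool.Agent.TH235.PP.IsGappedGround (Pool.Agent.TH235.PP.ham h L) (γ / 2) (Ψ L)) ∧
      Local Ψ

theorem locA (hF : FinA) (hT : TwoA) (hBox : BoxS) (hRate : RateS) (hRed : RedS) (hNear : NearS)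
    (hTr : TrS) : LocA := by
  classical
  intro d a γ f hd ha hγ hf0 hg n hn
  have hi : NeZero d := ⟨by omega⟩
  obtain ⟨δ₁, hδ₁, htwo⟩ := hT d a γ f ha hγ hf0 hg n hn
  obtain ⟨δ', C, hδ', hC, hfin⟩ := hF d a γ f ha hγ hf0 hg n 1 hn one_pos
  refine ⟨min δ₁ δ', lt_min hδ₁ hδ', ?_⟩
  intro h hh hclose
  have hex : ∀ L : ℕ, ∃ Ψ : (Site L → Fin d) → ℂ, ∀ (_ : NeZero L), n ≤ L →
      Pool.Agent.TH235.PP.normSq Ψ = 1 ∧
      Pool.Agent.TH235.PP.IsGappedGround (Pool.Agent.TH235.PP.ham h L) (γ / 2) Ψ ∧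
      ∀ ε : ℝ, 0 < ε → ε ≤ 1 → ∃ (D : ℕ) (φ : (Site L → Fin d) → ℂ),
        (D : ℝ) ≤ C * ((L : ℝ) / ε) ^ (1 : ℝ) ∧ IsPEPS D φ ∧
          Pool.Agent.TH235.PP.normSq (φ - Ψ) ≤ ε ^ 2 := by
    intro L
    by_cases hL : L = 0
    · exact ⟨0, fun hz => absurd hL hz.out⟩
    · have hz : NeZero L := ⟨hL⟩
      by_cases hnL : n ≤ L
      · obtain ⟨Ψ, h1, h2, h3⟩ := hfin h hh (fun p q => (hclose p q).trans (min_le_right _ _)) L hnL
        exact ⟨Ψ, fun _ _ => ⟨h1, h2, h3⟩⟩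
      · exact ⟨0, fun _ h => absurd h hnL⟩
  choose Ψ hΨ using hex
  have hfam : Fam d n h (γ / 2) n Ψ := by
    refine ⟨fun L hz hL => ⟨(hΨ L hz hL).1, (hΨ L hz hL).2.1⟩, fun N hN => ?_, ⟨C, hC, ?_⟩⟩
    · obtain ⟨δ₂, hδ₂, h2⟩ := htwo N hN
      exact ⟨δ₂, hδ₂, max n N, fun O hO hOc L _ hL =>
        h2 h hh (fun p q => (hclose p q).trans (min_le_left _ _)) O hO hOc L
          ((le_max_left _ _).trans hL) ((le_max_right _ _).trans hL)⟩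
    · intro L hz hL ε hε hε1
      obtain ⟨D, φ, e1, e2, e3⟩ := (hΨ L hz hL).2.2 ε hε hε1
      rw [Real.rpow_one] at e1
      exact ⟨D, φ, e1, e2, e3⟩
  refine ⟨Ψ, hfam.gs, local_of hTr hd fun R => ?_⟩
  obtain ⟨r₀, -, -, hboth⟩ := Pool.Agent.Y738.PE.both d hd R
  exact (hboth Ψ (poly_conv hBox hRate hRed hd hh (by positivity) hfam R)).1
    (eff_any hBox hNear hd hfam R (16 * r₀))

end Pool.Agent.Q234.KG.Loc
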