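import Pool.Agent.Q234.KG.Defs
import Pool.Agent.Q234.KT.Stm

/-!
# Project KG: statements of the jobs, with proofs in the docstrings

Project KT for every local dimension `d` and every one site Hamiltonian with a unique ground state. The proofs
are those of project KT (see `Pool/Agent/Q234/KT/Stm.lean` and the files of the helpers, whose names are given
in the jobs) with labels `m : V → Fin d` in place of sets `X`, `sp m` in place of `X`, shifts in place of flips.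
-/

set_option autoImplicit false

open scoped BigOperators
open Finset Pool.Agent.TH235.PP
open Pool.Agent.Q234.KT (IsSize Zc Conn bx)

namespace Pool.Agent.Q234.KG

/-- FourS. Fourier analysis on `(Fin d)^V`. PROOF. `cr a b` is the standard character of `ZMod d` (`cr a b` depends
on `a * b` modulo `d` only: `cr a (b + b') = cr a b * cr a b'`, `cr (a + a') b = cr a b * cr a' b`, `‖cr a b‖ = 1`,
`∑_b cr a b = 0` for `a ≠ 0` and `= d` for `a = 0`; geometric sum of a root of unity, or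
`AddChar`/`ZMod.stdAddChar` of Mathlib). `∑_m ch m σ conj (ch m τ) = ∏_v ∑_(a : Fin d) cr a (σ v - τ v) = d^|V|` if
`σ = τ` and `0` otherwise (`Finset.prod_univ_sum`, `Fintype.piFinset_univ`), the same with `σ` and `m` exchanged:
this gives (1) and (2). (3): insert (1) for `F` and `G`, use (5), (2) and `m ↦ k - m`. (6): `‖ch m σ‖ = 1` and there
are `d^|V|` configurations. (7): choose `v` with `m v ≠ 0`, `v ∉ B`; replace `σ` by `σ + single v a`, which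
multiplies `ch m σ` by `cr (m v) a` and does not change `F`; `cr (m v) a ≠ 1` for some `a` (for instance `a = 1`). -/
def FourS : Prop := ∀ (d : ℕ) [NeZero d] (V : Type) [Fintype V] [DecidableEq V],
  (∀ (F : (V → Fin d) → ℂ) (σ : V → Fin d), F σ = ∑ m : V → Fin d, co F m * ch m σ) ∧
  (∀ (c : (V → Fin d) → ℂ) (k : V → Fin d), co (fun σ => ∑ m : V → Fin d, c m * ch m σ) k = c k) ∧
  (∀ (F G : (V → Fin d) → ℂ) (k : V → Fin d),
    co (fun σ => F σ * G σ) k = ∑ m : V → Fin d, co F m * co G (k - m)) ∧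
  (∀ m σ c : V → Fin d, ch m (σ + c) = ch m c * ch m σ) ∧
  (∀ m k σ : V → Fin d, ch m σ * ch k σ = ch (m + k) σ) ∧
  (∀ (F : (V → Fin d) → ℂ) (ω : ℝ), (∀ σ, ‖F σ‖ ≤ ω) → ∀ m, ‖co F m‖ ≤ ω) ∧
  (∀ (F : (V → Fin d) → ℂ) (B : Finset V), (∀ σ τ : V → Fin d, (∀ v ∈ B, σ v = τ v) → F σ = F τ) →
    ∀ m, ¬ sp m ⊆ B → co F m = 0) ∧
  (∀ m σ : V → Fin d, ‖ch m σ‖ = 1) ∧
  (∀ m c : V → Fin d, (∀ v, m v = 0 ∨ c v = 0) → ch m c = 1) ∧
  ∀ (m : V → Fin d) (u : V) (a : Fin d), ch m (Pi.single u a) = cr (m u) a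

/-- AlgS. PROOF (from FourS (3)). As AlgS of project KT: `m = k + l`, `sp (k + l) ⊆ sp k ∪ sp l`, so
`t (S ∪ sp (k + l)) ≤ t (S ∪ sp k) + t (S ∪ sp l)`. For `nx`: `(k + l) x ≠ 0` implies `k x ≠ 0` or `l x ≠ 0`. -/
def AlgS : Prop := ∀ (d : ℕ) [NeZero d] (V : Type) [Fintype V] [DecidableEq V] (t : Finset V → ℕ)
  (r : ℝ) (S : Finset V), IsSize t → 1 ≤ r → S.Nonempty → ∀ F G : (V → Fin d) → ℂ,
    nm r t S (fun σ => F σ * G σ) ≤ nm r t S F * nm r t S G ∧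
    ∀ x, nx r t S x (fun σ => F σ * G σ) ≤ nx r t S x F * nm r t S G + nm r t S F * nx r t S x G

/-- ExpS, for every `M`. PROOF (from AlgS). With `D_k = F^k - F'^k`: `nm D_k ≤ k M^(k-1) nm (F - F')`,
`nx D_k ≤ k M^(k-1) nx (F - F') + k (k-1) M^(k-2) nm (F - F') (nx F + nx F')`, `exp F - exp F' = ∑_(k≥1) D_k / k!`,
`∑_(k≥1) k M^(k-1)/k! = exp M`, `∑_(k≥2) k M^(k-1)/k! = exp M - 1`, `∑_(k≥2) k (k-1) M^(k-2)/k! = exp M`
(`M ≥ 0` as `nm ≥ 0`). See the proofs of ExpS and ExpG of project KT. -/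
def ExpS : Prop := ∀ (d : ℕ) [NeZero d] (V : Type) [Fintype V] [DecidableEq V] (t : Finset V → ℕ)
  (r : ℝ) (S : Finset V), IsSize t → 1 ≤ r → S.Nonempty → ∀ (F F' : (V → Fin d) → ℂ) (M : ℝ),
    nm r t S F ≤ M → nm r t S F' ≤ M →
    nm r t S (fun σ => Complex.exp (F σ) - Complex.exp (F' σ)) ≤
      Real.exp M * nm r t S (fun σ => F σ - F' σ) ∧
    ∀ x, nx r t S x (fun σ => Complex.exp (F σ) - Complex.exp (F' σ)) ≤
        Real.exp M * nx r t S x (fun σ => F σ - F' σ) +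
          Real.exp M * nm r t S (fun σ => F σ - F' σ) * (nx r t S x F + nx r t S x F') ∧
      nx r t S x (fun σ => Complex.exp (F σ) - Complex.exp (F' σ) - (F σ - F' σ)) ≤
        (Real.exp M - 1) * nx r t S x (fun σ => F σ - F' σ) +
          Real.exp M * nm r t S (fun σ => F σ - F' σ) * (nx r t S x F + nx r t S x F')

/-- UPart. PROOF (from FourS, ExpS). For fixed `a`: `F = Gp g (single u a)` has the coefficients
`g m (cr (m u) a - 1)`, of modulus at most `2 ‖g m‖`, and `0` if `m u = 0`. So `nm r t {u} F ≤ 2 nb r t u g ≤ 2 δ`,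
`∑_u nx r t {u} x F ≤ 2 nb r t x g ≤ 2 δ`, the same for `g'`, and with `2 η` for the difference (which is
`Gp (g - g') (single u a)`). ExpS with `M = 2 δ ≤ 1`: the sum over `u` of the norms of `exp F - exp F' - (F - F')` is at
most `(exp (2 δ) - 1) 2 η + exp (2 δ) (2 η) (4 δ) ≤ (8 δ + 24 δ) η` (`exp x - 1 ≤ 2 x`, `exp x ≤ 3` for `x ≤ 1`).
Multiply by `‖α a‖` and sum over `a` (`nx` is subadditive). -/
def UPart : Prop := ∀ (d : ℕ) [NeZero d] (V : Type) [Fintype V] [DecidableEq V] (t : Finset V → ℕ)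
  (α : Fin d → ℂ) (r δ η : ℝ), IsSize t → 1 ≤ r → 2 * δ ≤ 1 → ∀ g g' : (V → Fin d) → ℂ,
    (∀ x, nb r t x g ≤ δ) → (∀ x, nb r t x g' ≤ δ) → (∀ x, nb r t x (fun m => g m - g' m) ≤ η) →
    ∀ x, ∑ u, nx r t {u} x (fun σ => ∑ a, α a *
      ((Complex.exp (Gp g (Pi.single u a) σ) - 1 - Gp g (Pi.single u a) σ) -
      (Complex.exp (Gp g' (Pi.single u a) σ) - 1 - Gp g' (Pi.single u a) σ))) ≤
        48 * (∑ a, ‖α a‖) * δ * η

/-- JPart. PROOF (from FourS, AlgS, ExpS). As JPartG of project KT: `F = Gp g (c j)` has the coefficients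
`g m (ch m (c j) - 1)`, of modulus at most `2 ‖g m‖`, and `0` if `sp m ∩ sp (c j) = ∅`; `t (B_j ∪ sp m) ≤ b + t (sp m)`
for the others. `nm r t B_j F ≤ 2 r^b b δ ≤ 2 r^b b =: M₀`, `∑_j nx r t B_j x F ≤ 2 r^b m δ`,
`nm r t B_j w_j ≤ d^b ω r^b =: W` (there are at most `d^b` labels with support in `B_j`). The first sum is at most
`m W exp M₀ (2 r^b b η) + W exp M₀ (2 r^b m η) + W exp M₀ (2 r^b b η) (4 r^b m δ) ≤ K ω η`, the second at most
`m W + (..) ≤ K ω`. -/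
def JPart : Prop := ∀ (d : ℕ) [NeZero d] (b m : ℕ) (r : ℝ), 1 ≤ r → ∃ K : ℝ, 0 < K ∧
  ∀ (V : Type) [Fintype V] [DecidableEq V] (J : Type) [Fintype J] (t : Finset V → ℕ)
    (c : J → V → Fin d) (B : J → Finset V) (w : J → (V → Fin d) → ℂ) (ω δ η : ℝ), IsSize t → 0 ≤ ω →
    IsPert b m t c B w ω → δ ≤ 1 → ∀ g g' : (V → Fin d) → ℂ, (∀ x, nb r t x g ≤ δ) →
    (∀ x, nb r t x g' ≤ δ) → (∀ x, nb r t x (fun k => g k - g' k) ≤ η) → ∀ x,
      ∑ j, nx r t (B j) x (fun σ => w j σ * (Complex.exp (Gp g (c j) σ) -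
        Complex.exp (Gp g' (c j) σ))) ≤ K * ω * η ∧
      ∑ j, nx r t (B j) x (fun σ => w j σ * Complex.exp (Gp g (c j) σ)) ≤ K * ω

/-- ContrS. PROOF (from UPart, FourS). `Ee e m ≥ |sp m|` (IsOne), so for `m ≠ 0`
`|sp m| ‖Tm g m‖ ≤ ‖co (Ph g) m‖`, and `t (sp m) ≤ t ({u} ∪ sp m)`, `t (sp m) ≤ t (B_j ∪ sp m)`. With
`A = ∑_a ‖α a‖`: `nb r t x (Tm g) ≤ 48 A δ δ + κ ≤ δ/4 + δ/2` (UPart with `g' = 0`, `η = δ`) and
`nb r t x (Tm g - Tm g') ≤ 48 A δ η + κ η ≤ η/4 + η/4` (as `δ ≤ 1/192`, so `κ ≤ 1/4`). -/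
def ContrS : Prop := ∀ (d : ℕ) [NeZero d] (α : Fin d → ℂ) (e : Fin d → ℝ) (V : Type) [Fintype V]
    [DecidableEq V] (J : Type) [Fintype J] (t : Finset V → ℕ) (c : J → V → Fin d) (B : J → Finset V)
    (w : J → (V → Fin d) → ℂ) (r δ κ : ℝ), IsOne α e → IsSize t → 1 ≤ r → 0 < δ →
    δ ≤ 1 / (192 * (∑ a, ‖α a‖ + 1)) → κ ≤ δ / 2 → JB r δ κ t c B w →
    (∀ g : (V → Fin d) → ℂ, (∀ x, nb r t x g ≤ δ) → ∀ x, nb r t x (Tm α e c w g) ≤ δ) ∧
    ∀ (g g' : (V → Fin d) → ℂ) (η : ℝ), (∀ x, nb r t x g ≤ δ) → (∀ x, nb r t x g' ≤ δ) →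
      (∀ x, nb r t x (fun m => g m - g' m) ≤ η) →
      ∀ x, nb r t x (fun m => Tm α e c w g m - Tm α e c w g' m) ≤ η / 2

/-- FixS. The fixed point. PROOF. As FixS of project KT. -/
def FixS : Prop := ∀ (d : ℕ) [NeZero d] (V : Type) [Fintype V] [DecidableEq V] (t : Finset V → ℕ)
  (r δ : ℝ) (T : ((V → Fin d) → ℂ) → (V → Fin d) → ℂ), 1 ≤ r → 0 ≤ δ → (∀ g, T g 0 = 0) →
  (∀ g : (V → Fin d) → ℂ, (∀ x, nb r t x g ≤ δ) → ∀ x, nb r t x (T g) ≤ δ) →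
  (∀ (g g' : (V → Fin d) → ℂ) (η : ℝ), (∀ x, nb r t x g ≤ δ) → (∀ x, nb r t x g' ≤ δ) →
    (∀ x, nb r t x (fun m => g m - g' m) ≤ η) →
    ∀ x, nb r t x (fun m => T g m - T g' m) ≤ η / 2) →
  ∃ g : (V → Fin d) → ℂ, g 0 = 0 ∧ (∀ x, nb r t x g ≤ δ) ∧ T g = g

/-- EigS. PROOF (from FourS). `Psi g (σ + c) = Psi g σ exp (Gp g c σ)`. So `Hf Psi / Psi =
∑_u ∑_a α a exp (Gp g (single u a)) + ∑_j w_j exp (Gp g (c j)) = ∑_u ∑_a α a (1 + Gp g (single u a)) + Ph`.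
`∑_a α a = e 0 = 0` (`cr 0 a = 1`), `∑_u ∑_a α a Gp g (single u a) σ = ∑_m g m (∑_u (e (m u) - e 0)) ch m σ =
∑_m Ee e m g m ch m σ`. Its coefficient at `m ≠ 0` is `Ee e m * g m + co Ph m = 0` by the fixed point equation
(`Ee e m ≥ 1` for `m ≠ 0`), at `0` it is `co Ph 0`. -/
def EigS : Prop := ∀ (d : ℕ) [NeZero d] (α : Fin d → ℂ) (e : Fin d → ℝ) (V : Type) [Fintype V]
  [DecidableEq V] (J : Type) [Fintype J] (c : J → V → Fin d) (w : J → (V → Fin d) → ℂ)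
  (g : (V → Fin d) → ℂ), IsOne α e → Tm α e c w g = g →
  ∀ σ, Hf α c w (Psi g) σ = co (Ph α c w g) 0 * Psi g σ

/-- GapS. PROOF (from FourS; `|F| = ∑_m ‖co F m‖` is submultiplicative by FourS (3), `|exp F - 1| ≤ exp |F| - 1`).
With `f = F / Psi g = ∑_m a_m ch m`, subtracting the equation of `Psi g`:
`∑_u ∑_a α a exp (G_(u,a)) (f (σ + single u a) - f σ) + ∑_j w_j exp (G_j) (f (σ + c_j) - f σ) = μ f`,
`G_(u,a) = Gp g (single u a)`, `G_j = Gp g (c j)`; `∑_u ∑_a α a (f (σ + single u a) - f σ)` has the coefficients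
`Ee e m * a_m`. Hence `(Ee e m - μ) a_m = - co K m`, `K = ∑_u ∑_a α a (exp G_(u,a) - 1) (f (σ + single u a) - f σ) +
∑_j w_j exp (G_j) (f (σ + c_j) - f σ)`. With `A = ∑ ‖α a‖`: `|G_(u,a)| ≤ 2/(32 (A+1))`,
`|exp G_(u,a) - 1| ≤ 1/(8 (A+1))`, `|f (σ + single u a) - f σ| ≤ 2 ∑_(m u ≠ 0) ‖a_m‖`, so the first part is at most
`(1/4) ∑_m |sp m| ‖a_m‖`; with `W_j = |w_j exp (G_j)|` the second is at most `2 ∑_m ‖a_m‖ ∑_(j : sp c_j ∩ sp m ≠ ∅) W_j ≤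
2 (1/16) ∑_m |sp m| ‖a_m‖`. As `‖Ee e m - μ‖ ≥ |sp m| - Re μ ≥ |sp m| / 2` for `m ≠ 0`:
`(1/2) ∑_m |sp m| ‖a_m‖ ≤ |K| ≤ (3/8) ∑_m |sp m| ‖a_m‖`, so `a_m = 0` for `m ≠ 0`. -/
def GapS : Prop := ∀ (d : ℕ) [NeZero d] (α : Fin d → ℂ) (e : Fin d → ℝ) (V : Type) [Fintype V]
  [DecidableEq V] (J : Type) [Fintype J] (c : J → V → Fin d) (B : J → Finset V)
  (w : J → (V → Fin d) → ℂ) (g : (V → Fin d) → ℂ) (E μ : ℂ) (F : (V → Fin d) → ℂ), IsOne α e →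
  (∀ j, sp (c j) ⊆ B j) →
  (∀ x, ∑ m ∈ univ.filter (fun m : V → Fin d => m x ≠ 0), ‖g m‖ ≤ 1 / (32 * (∑ a, ‖α a‖ + 1))) →
  (∀ x, ∑ j ∈ univ.filter (fun j => x ∈ B j), ∑ m : V → Fin d,
    ‖co (fun σ => w j σ * Complex.exp (Gp g (c j) σ)) m‖ ≤ 1 / 16) →
  (∀ σ, Hf α c w (Psi g) σ = E * Psi g σ) → μ.re < 1 / 2 →
  (∀ σ, Hf α c w F σ = (E + μ) * F σ) → ∃ z : ℂ, ∀ σ, F σ = z * Psi g σ

/-- L1S. PROOF (from FourS). `|w_j| ≤ d^b ω` (at most `d^b` labels with support in `B_j`, `|B_j| ≤ t B_j ≤ b`),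
`|Gp g (c j)| ≤ 2 ∑_(sp m meets B_j) ‖g m‖ ≤ 2 b / 32`, so `|w_j exp (G_j)| ≤ d^b ω exp (b/16)`, and there are at
most `m` indices `j` with `x ∈ B_j`. -/
def L1S : Prop := ∀ (d : ℕ) [NeZero d] (b m : ℕ), ∃ K : ℝ, 0 < K ∧ ∀ (V : Type) [Fintype V]
  [DecidableEq V] (J : Type) [Fintype J] (t : Finset V → ℕ) (c : J → V → Fin d) (B : J → Finset V)
  (w : J → (V → Fin d) → ℂ) (ω : ℝ) (g : (V → Fin d) → ℂ), IsSize t → 0 ≤ ω →
  IsPert b m t c B w ω →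
  (∀ x, ∑ m ∈ univ.filter (fun m : V → Fin d => m x ≠ 0), ‖g m‖ ≤ 1 / 32) →
  ∀ x, ∑ j ∈ univ.filter (fun j => x ∈ B j), ∑ m : V → Fin d,
    ‖co (fun σ => w j σ * Complex.exp (Gp g (c j) σ)) m‖ ≤ K * ω

/-- LocS. As LocS of project KT, for `Fin d`. -/
def LocS : Prop := ∀ (d L : ℕ) [NeZero L] (Q K : Type) [Fintype Q] [DecidableEq Q] [DecidableEq K]
  (D : ℕ) (W : Site L → Fin d → Q → ℂ) (lf rt dn up : Site L → Q → K) (Sh Sv : Site L → Finset K),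
  (∀ x, (Sh x).card ≤ D) → (∀ x, (Sv x).card ≤ D) → (∀ x q, rt x q ∈ Sh x) →
  (∀ x q, up x q ∈ Sv x) →
  IsPEPS D (fun σ : Site L → Fin d => ∑ Qf ∈ univ.filter (fun Qf : Site L → Q =>
    (∀ x : Site L, rt x (Qf x) = lf (x.1 + 1, x.2) (Qf (x.1 + 1, x.2))) ∧
      ∀ x : Site L, up x (Qf x) = dn (x.1, x.2 + 1) (Qf (x.1, x.2 + 1))), ∏ x, W x (σ x) (Qf x))

/-- RepS. The truncated sum is a PEPS. PROOF (from LocS). As RepS of project KT, where the types were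
`false`, `true`; now the types of `X` are the labels `l` with `sp l ⊆ X`, with the weight `β X l * ch l σ`,
`ch l σ = ∏_(v ∈ X) cr (l v) (σ v)` (`cr 0 a = 1`). A typed set `Q : Finset (Pol × (V → Fin d))` is functional if
every polymer occurs with at most one type; `Zc = ∑_Q ∏_((X,l) ∈ Q) β X l * ch l σ` over the functional `Q` whose
types are allowed, with load at most `s`. Local states at `v`: functional `Q_v ∈ typ d h s v`, weight
`∏_((X,l) ∈ Q_v) (if v = root X then β X l else 1) * (if v ∈ X then cr (l v) (σ v) else 1)`. Labels and the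
correspondence between families `(Q_v)` and sets `Q`: as in project KT. -/
def RepS : Prop := ∀ (d L : ℕ) [NeZero d] [NeZero L] (h : Pol (Site L) → Finset (Site L))
  (β : Pol (Site L) → (Site L → Fin d) → ℂ) (s D : ℕ), (∀ X, X.1 ⊆ h X) → (∀ X, Conn (h X)) →
  (∀ v, (typ d h s v).card ≤ D) →
  IsPEPS D (fun σ : Site L → Fin d => Zc h
    (fun X => ∑ l ∈ univ.filter (fun l : Site L → Fin d => sp l ⊆ X.1), β X l * ch l σ) (fun _ => s))

/-- CntS. PROOF. As CntS of project KT with `y = 1/(8 a d)`: `#typ ≤ y^(-s) exp (∑_((X,l) : v ∈ h X) y^|h X|)`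
and `∑_((X,l) : v ∈ h X) y^|h X| ≤ ∑_k a^k 2^k d^k y^k = ∑_(k≥1) 4^(-k) = 1/3` (for `h X = S`, `|S| = k`, there are
at most `2^k` sets `X` and `d^|X| ≤ d^k` types). -/
def CntS : Prop := ∀ (d : ℕ) [NeZero d] (V : Type) [Fintype V] [DecidableEq V]
  (h : Pol V → Finset V) (a s : ℕ) (v : V), 1 ≤ a → (∀ X, X.1 ⊆ h X) →
  (∀ (v : V) (k : ℕ), ((univ.image h).filter fun S => v ∈ S ∧ S.card = k).card ≤ a ^ k) →
  ((typ d h s v).card : ℝ) ≤ 2 * (8 * a * d : ℝ) ^ s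

/-- WtS. PROOF. As WtS of project KT: `‖wX g X σ‖ ≤ 2 ∑_(sp m = X) ‖g m‖` since this sum is at most
`nb r t x g ≤ 1/4` for `x ∈ X` (`‖exp z - 1‖ ≤ 2 ‖z‖` for `‖z‖ ≤ 1`, `‖ch m σ‖ = 1`). For `S = h X`, `|S| = k`, `v ∈ S`:
`∑_(X : h X = S) ∑_(sp m = X) ‖g m‖ ≤ ∑_(x ∈ S) ∑_(m x ≠ 0, h (sp m) = S) ‖g m‖ ≤ k r^(-k) / 4`. The rest is as there. -/
def WtS : Prop := ∀ (d : ℕ) [NeZero d] (V : Type) [Fintype V] [DecidableEq V]
  (h : Finset V → Finset V) (a : ℕ) (r q : ℝ) (g : (V → Fin d) → ℂ), 1 ≤ a → 1 ≤ q →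
  8 * a * q ≤ r → (∀ X, X ⊆ h X) →
  (∀ (v : V) (k : ℕ), ((univ.image h).filter fun S => v ∈ S ∧ S.card = k).card ≤ a ^ k) →
  (∀ x, nb r (fun X => (h X).card) x g ≤ 1 / 4) → ∀ (σ : V → Fin d) (v : V),
    ∑ X ∈ univ.filter (fun X : Pol V => v ∈ h X.1), ‖wX g X.1 σ‖ * (2 * q) ^ (h X.1).card ≤ 1 / 4

/-- PrdS. PROOF. First: `exp (∑_m ..) = ∏_X exp (∑_(sp m = X) ..)` (`Complex.exp_sum`,
`Finset.sum_fiberwise` over `m ↦ sp m`; the factor of `X = ∅` is `exp (g 0 * ch 0 σ) = 1`). Second: `wX g X` depends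
on the spins in `X` only, so its coefficients vanish unless `sp l ⊆ X` (FourS (1), (7); `ch m σ` with `sp m = X` depends
on the spins in `X` only as `cr 0 a = 1`). -/
def PrdS : Prop := ∀ (d : ℕ) [NeZero d] (V : Type) [Fintype V] [DecidableEq V]
  (g : (V → Fin d) → ℂ), g 0 = 0 → ∀ σ : V → Fin d,
    Psi g σ = ∏ X : Pol V, (1 + wX g X.1 σ) ∧
    ∀ X : Pol V, wX g X.1 σ =
      ∑ l ∈ univ.filter (fun l : V → Fin d => sp l ⊆ X.1), co (wX g X.1) l * ch l σ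

/-- MatS. PROOF. As MatS of project KT (`Pool/Agent/Q123/KT/Mat.lean`). For `n ≤ L` the map `sh u` is injective.
`(term h u).mulVec F σ = ∑_τ [σ = τ off the box] h (σ ∘ sh u) (τ ∘ sh u) F τ`; the `τ` equal to `σ` off the box are the
`σ + push u a`, `a : Fin n × Fin n → Fin d`, with `τ ∘ sh u = σ ∘ sh u + a`. For `h = site α n` only `a = single (0,0) c`
contribute, with `α c`, and `push u (single (0,0) c) = single u c`. The second part: `‖w_j σ‖ ≤ δ`, `w_j` depends on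
the spins of `bx n u` only (FourS (6), (7)), `sp (push u a) ⊆ bx n u`; `v ∈ bx n u` for at most `n²` sites `u`. -/
def MatS : Prop := ∀ (d n L : ℕ) [NeZero d] [NeZero L] (α : Fin d → ℂ) (h : BoxOp d n) (δ : ℝ),
  1 ≤ n → n ≤ L → (∀ p q, ‖h p q - site α n p q‖ ≤ δ) →
  (∀ F σ, (ham h L).mulVec F σ = Hf α
    (fun j : Site L × (Fin n × Fin n → Fin d) => push j.1 j.2) (wj α h) F σ) ∧
  ∀ t : Finset (Site L) → ℕ, (∀ u, t (bx n u) ≤ n ^ 2) →
    IsPert (n ^ 2) (n ^ 2 * d ^ n ^ 2) t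
      (fun j : Site L × (Fin n × Fin n → Fin d) => push j.1 j.2) (fun j => bx n j.1)
      (wj α h (L := L)) δ

/-- ArithS. PROOF. As ArithS of project KT with `q = exp (2 log A / κ)` or larger. -/
def ArithS : Prop := ∀ A κ : ℝ, 1 ≤ A → 0 < κ → ∃ q C : ℝ, 1 ≤ q ∧ 0 < C ∧ ∀ (L : ℕ) (ε : ℝ),
  1 ≤ L → 0 < ε → ε ≤ 1 → ∃ s : ℕ, (1 + 2 / q ^ s) ^ (L ^ 2) - 1 ≤ ε / 4 ∧
    2 * A ^ s + 1 ≤ C * ((L : ℝ) / ε) ^ κ

/-- the tensor product of the one site operator `W` -/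
noncomputable def tpw {V : Type} [Fintype V] {d : ℕ} (W : Matrix (Fin d) (Fin d) ℂ) :
    Matrix (V → Fin d) (V → Fin d) ℂ := fun s t => ∏ v, W (s v) (t v)

/-- the one site interaction `a_(0,0)` for a matrix `a`, on the `n × n` box -/
noncomputable def site1 {d : ℕ} (a : Matrix (Fin d) (Fin d) ℂ) (n : ℕ) : BoxOp d n := fun p q =>
  ∏ x : Fin n × Fin n, if (x.1 : ℕ) = 0 ∧ (x.2 : ℕ) = 0 then a (p x) (q x)
    else if p x = q x then 1 else 0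

/-- DiaS. PROOF. Spectral theorem for `a`: an orthonormal basis of eigenvectors `f_k`, ordered such that `f_0` has the
eigenvalue `lam`; the others have eigenvalues at least `lam + γ` (an eigenvector orthogonal to `f_0` with
the eigenvalue `lam` is excluded by the uniqueness). `W s b = d^(-1/2) ∑_k cr k s * conj (f_k b)` is unitary (product of
the Fourier matrix and the adjoint of the matrix of the `f_k`), and `γ⁻¹ • (W (a - lam) Wᴴ) s t =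
(1/d) ∑_k e_k cr k s conj (cr k t) = α (t - s)` with `e_k = (lam_k - lam)/γ` and `α c = (1/d) ∑_k e_k conj (cr k c)`,
and `∑_c α c cr k c = e_k` by orthogonality of characters. -/
def DiaS : Prop := ∀ (d : ℕ) [NeZero d] (a : Matrix (Fin d) (Fin d) ℂ) (γ : ℝ) (φ : Fin d → ℂ),
  a.IsHermitian → 0 < γ → φ ≠ 0 → IsGappedGround a γ φ → ∃ (W : Matrix (Fin d) (Fin d) ℂ) (lam : ℝ)
    (α : Fin d → ℂ) (e : Fin d → ℝ), W * W.conjTranspose = 1 ∧ W.conjTranspose * W = 1 ∧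
    IsOne α e ∧ ∀ s t, (W * a * W.conjTranspose) s t = γ * α (t - s) + if s = t then (lam : ℂ) else 0

/-- UniS. On site unitaries. PROOF. `tpw (W₁ * W₂) = tpw W₁ * tpw W₂` (`Finset.prod_univ_sum`), `tpw 1 = 1`,
`(tpw W)ᴴ = tpw Wᴴ`. (1) `tpw W * ham h L * tpw Wᴴ = ham (tpw W * h * tpw Wᴴ) L` for `n ≤ L` (for one term: at the sites
of the box the product over `v` gives the conjugated box operator, off the box `W Wᴴ = 1`; `sh u` is injective).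
(2) `normSq (tpw W *ᵥ φ) = normSq φ`. (3) PEPS: the tensor `A' x s .. = ∑_t W s t A x t ..`. (4)
`tpw W * site1 a n * tpw Wᴴ = site1 (W * a * Wᴴ) n`. (5) the entries of `tpw W` are at most `1` (rows of a unitary), so the
entries of `tpw W * k * tpw Wᴴ` are at most `(d^(n^2))^2` times the bound of the entries of `k`. -/
def UniS : Prop := ∀ (d : ℕ) (W : Matrix (Fin d) (Fin d) ℂ), W * W.conjTranspose = 1 →
  W.conjTranspose * W = 1 →
  (∀ (n L : ℕ) [NeZero L] (h : BoxOp d n), n ≤ L →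
    tpw W * ham h L * tpw W.conjTranspose = ham (tpw W * h * tpw W.conjTranspose : BoxOp d n) L) ∧
  (∀ (V : Type) [Fintype V] [DecidableEq V],
    (tpw W.conjTranspose * tpw W : Matrix (V → Fin d) (V → Fin d) ℂ) = 1 ∧
    (tpw W * tpw W.conjTranspose : Matrix (V → Fin d) (V → Fin d) ℂ) = 1 ∧
    (∀ φ : (V → Fin d) → ℂ, normSq ((tpw W).mulVec φ) = normSq φ) ∧
    ((tpw W : Matrix (V → Fin d) (V → Fin d) ℂ).conjTranspose = tpw W.conjTranspose) ∧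
    ∀ s t : V → Fin d, ‖tpw W s t‖ ≤ 1) ∧
  (∀ (L D : ℕ) [NeZero L] (φ : (Site L → Fin d) → ℂ), IsPEPS D φ → IsPEPS D ((tpw W).mulVec φ)) ∧
  ∀ (n : ℕ) (a : Matrix (Fin d) (Fin d) ℂ), 1 ≤ n →
    tpw W * site1 a n * tpw W.conjTranspose = (site1 (W * a * W.conjTranspose) n : BoxOp d n)

/-- SitS. PROOF. (1) the factor at `(0,0)` is linear in `a`, all the other factors are `0` or `1`; for `a = 1` the
product is `1` if `p = q` and `0` otherwise (`n ≥ 1`). (2) `site α n p q` is `α (q (0,0) - p (0,0))` if `p = q` off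
`(0,0)` and `0` otherwise. (3) the terms are linear in `h`, and the terms of `1` are `1` for `n ≤ L` (`sh u` is injective:
equal restrictions to the box and equal values off the box mean equality). -/
def SitS : Prop := ∀ (d : ℕ) [NeZero d] (n : ℕ), 1 ≤ n →
  (∀ (a b : Matrix (Fin d) (Fin d) ℂ) (c z : ℂ),
    (site1 (c • a + z • b) n : BoxOp d n) = c • site1 a n + z • site1 b n) ∧
  (site1 (1 : Matrix (Fin d) (Fin d) ℂ) n : BoxOp d n) = 1 ∧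
  (∀ α : Fin d → ℂ, (site1 (fun s t => α (t - s)) n : BoxOp d n) = site α n) ∧
  ∀ (L : ℕ) [NeZero L], n ≤ L → ∀ (h : BoxOp d n) (c z : ℂ),
    ham (c • h + z • 1) L = c • ham h L + (z * (L : ℂ) ^ 2) • 1

end Pool.Agent.Q234.KG
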